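import Mathlib

/-!
Constraint satisfaction problems over Boolean variables whose constraints are given by truth
tables.
-/

namespace SmallDepth

variable {n M w : ℕ}

/-- The constraints that are satisfied by the assignment `α`. The constraint `c` reads the variables
`sc c j`, and `x (c, τ)` tells whether it allows the values `τ`. -/
def satisfied (sc : Fin M → Fin w → Fin n) (x : Fin M × (Fin w → Bool) → Bool)
    (α : Fin n → Bool) : Finset (Fin M) :=
  Finset.univ.filter (fun c => x (c, fun j => α (sc c j)) = true)

/-- Some assignment satisfies all constraints. -/
def Satisfiable (sc : Fin M → Fin w → Fin n) (x : Fin M × (Fin w → Bool) → Bool) : Prop :=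
  ∃ α, satisfied sc x α = Finset.univ

/-- Every assignment satisfies at most three quarters of the constraints. -/
def ThreeQuarters (sc : Fin M → Fin w → Fin n) (x : Fin M × (Fin w → Bool) → Bool) : Prop :=
  ∀ α, 4 * (satisfied sc x α).card ≤ 3 * M

end SmallDepth
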