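import Mathlib
import Pool.Agent.H592R5.Sep

/-!
Families of circuits that read the image of a formula under a simple reduction.
-/

set_option linter.unusedSectionVars false

namespace H592R3

open Finset DomAC0 H568R2 SmallDepth

lemma junta_comp {I I' : Type*} {f : (I' → Bool) → Bool} (hf : Junta 1 f)
    {g : (I → Bool) → (I' → Bool)} (hg : ∀ i, Junta 1 (fun X => g X i)) :
    Junta 1 (fun X => f (g X)) := by
  obtain ⟨A, hA, hd⟩ := hf
  rcases A.eq_empty_or_nonempty with he | ⟨i, hi⟩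
  · subst he
    exact ⟨∅, by simp, fun X Y _ => hd _ _ (by simp)⟩
  · obtain ⟨B, hB, hd2⟩ := hg i
    refine ⟨B, hB, fun X Y h => hd _ _ ?_⟩
    intro j hj
    have : j = i := Finset.card_le_one.1 hA j hj i hi
    subst this
    exact hd2 X Y h

/-- The lower bound for separating families and images of formulas. -/
theorem cnf_sepG (ε : ℝ) (hε : 0 < ε) : ∃ C : ℝ, 0 < C ∧ ∀ n d g w M S : ℕ, 2 ≤ n → 1 ≤ d →
    C * (d * Real.log (n + g)) ≤ w → w ≤ n → n * 2 ^ w ≤ M →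
    ∀ (J : Type) (σ : (Fin M × Fin n × Bool → Bool) → (J → Bool)),
    (∀ j, Junta 1 (fun x => σ x j)) →
    ∀ (N : ℕ) (p : Fin N → ℝ) (K : Fin N → Fin (2 ^ g) → Circuit J),
    (∀ i, 0 ≤ p i) → ∑ i, p i = 1 → (∀ i z, (K i z).depth ≤ d ∧ (K i z).size ≤ S) →
    (∀ x : Fin M × Fin n × Bool → Bool, WidthLe x w → ¬ (∃ α, Models x α) →
      ∃ z : Fin N → Fin (2 ^ g), ∀ y : Fin M × Fin n × Bool → Bool, WidthLe y w →
        (∀ α β, Models y α → Models y β → α = β) → (∃ α, Models y α) →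
        (1 : ℝ) / 3 ≤ ∑ i, p i *
          (if (K i (z i)).eval (σ x) ≠ (K i (z i)).eval (σ y) then (1 : ℝ) else 0)) →
    (2 : ℝ) ^ ((1 - ε) * n) < S := by
  classical
  obtain ⟨Q, hQ6, _, C, hC, hpar⟩ := params4 ε hε
  refine ⟨C, hC, ?_⟩
  intro n d g w M S hn hd hw hwn hM J σ hσ N p K hp0 hp1 hK hsep
  obtain ⟨b, m', k, hb, hm', hA, hB1', hB2, hgk, hBw, hQn, hexp⟩ := hpar n d g w hn hd hw hwn
  obtain ⟨s, hs, hsexp, hssm⟩ := scopes2 Q m' hQ6 (by omega)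
  have hdt : 1 ≤ d * b := Nat.one_le_iff_ne_zero.2 (by positivity)
  have hℓ2 : 2 ≤ 2 * d * b := by
    have : 2 * d * b = 2 * (d * b) := by ring
    omega
  -- encoding of the variables
  have hcard1 : Q * m' * (2 * d * b) ≤ n := by
    refine le_trans ?_ hQn
    exact Nat.mul_le_mul_left _ (by omega)
  obtain ⟨e⟩ : Nonempty ((Fin (Q * m') × Fin (2 * d * b)) ↪ Fin n) := by
    apply Function.Embedding.nonempty_of_card_le
    rw [Fintype.card_prod, Fintype.card_fin, Fintype.card_fin, Fintype.card_fin]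
    exact hcard1
  obtain ⟨dec⟩ : Nonempty ((Fin (2 * d * b) → Bool) ≃ Fin (2 ^ (2 * d * b))) :=
    ⟨Fintype.equivFinOfCardEq (by simp)⟩
  have hn0 : 0 < n := by omega
  have hB1 : 2 ≤ (2 * Q ^ 2 + 14 + 1) * (2 * d * b) := by
    calc 2 ≤ 2 * d * b := hℓ2
      _ = 1 * (2 * d * b) := (one_mul _).symm
      _ ≤ _ := Nat.mul_le_mul_right _ (by omega)
  -- encoding of the clauses
  have hcard2 : Q * m' * (2 ^ (2 * d * b)) ^ (2 * Q ^ 2 + 14 + 1) + n ≤ M := by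
    refine le_trans ?_ hM
    have h1 : (2 ^ (2 * d * b)) ^ (2 * Q ^ 2 + 14 + 1) ≤ 2 ^ w := by
      rw [← pow_mul]
      apply Nat.pow_le_pow_right (by norm_num)
      rw [mul_comm]; omega
    have h2 : 2 * (Q * m') ≤ n := by
      refine le_trans ?_ hcard1
      rw [mul_comm]
      exact Nat.mul_le_mul_left _ hℓ2
    have h3 : 2 ≤ 2 ^ w := by
      calc 2 = 2 ^ 1 := (pow_one 2).symm
        _ ≤ 2 ^ w := Nat.pow_le_pow_right (by norm_num) (by omega)
    have h4 : 2 * (Q * m' * (2 ^ (2 * d * b)) ^ (2 * Q ^ 2 + 14 + 1)) ≤ n * 2 ^ w := by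
      calc 2 * (Q * m' * (2 ^ (2 * d * b)) ^ (2 * Q ^ 2 + 14 + 1)) =
          (2 * (Q * m')) * (2 ^ (2 * d * b)) ^ (2 * Q ^ 2 + 14 + 1) := by ring
        _ ≤ n * 2 ^ w := Nat.mul_le_mul h2 h1
    have h5 : 2 * n ≤ n * 2 ^ w := by
      rw [mul_comm]; exact Nat.mul_le_mul_left _ h3
    omega
  obtain ⟨π, hπ⟩ : ∃ π : Fin M → (Fin (Q * m') × (Fin (2 * Q ^ 2 + 14 + 1) →
      Fin (2 ^ (2 * d * b)))) ⊕ Fin n, Function.Surjective π := by
    have : Nonempty ((Fin (Q * m') × (Fin (2 * Q ^ 2 + 14 + 1) →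
      Fin (2 ^ (2 * d * b)))) ⊕ Fin n) := ⟨Sum.inr ⟨0, hn0⟩⟩
    obtain ⟨g⟩ : Nonempty (((Fin (Q * m') × (Fin (2 * Q ^ 2 + 14 + 1) →
      Fin (2 ^ (2 * d * b)))) ⊕ Fin n) ↪ Fin M) := by
      apply Function.Embedding.nonempty_of_card_le
      rw [Fintype.card_sum, Fintype.card_prod, Fintype.card_fun, Fintype.card_fin,
        Fintype.card_fin, Fintype.card_fin, Fintype.card_fin, Fintype.card_fin]
      exact hcard2
    exact ⟨Function.invFun g, Function.invFun_surjective g.injective⟩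
  have hwid : ∀ X, WidthLe (cnfOf s e dec ⟨0, hn0⟩ π X) w := fun X =>
    cnfOf_width (by omega) (by omega) X
  have hlow := Mb3.csp_core Q d m' b k g (d * (E1 Q * m' + k)) hQ6 hd hm' rfl hA hB1' hB2 hgk
    s hs hsexp hssm
    (Game.arthur N p (fun i => .merlin g (fun z => .verify (K i z))))
    (S := S) ⟨hp0, hp1, fun i => ⟨le_refl _, fun z => hK i z⟩⟩
    (fun X => σ (cnfOf s e dec ⟨0, hn0⟩ π X))
    (fun j => junta_comp (hσ j) (cnfOf_junta s e dec ⟨0, hn0⟩ π))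
    (sep_pt (Nat.one_le_iff_ne_zero.2 (by positivity)) s p hp0 K
      (fun X => σ (cnfOf s e dec ⟨0, hn0⟩ π X)) (by
      intro X hX
      obtain ⟨z, hz⟩ := hsep _ (hwid X) (fun h => hX ((cnfOf_sat hπ X).1 h))
      refine ⟨z, fun Y hY hY' => ?_⟩
      exact hz _ (hwid Y) (cnfOf_unique hπ Y hY) ((cnfOf_sat hπ Y).2 hY')))
  have hSR : ((2 ^ ((2 * Q - 12) * (d * b * m')) : ℕ) : ℝ) < S := by exact_mod_cast hlow
  refine lt_of_le_of_lt ?_ hSR
  push_cast
  rw [← Real.rpow_natCast]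
  exact Real.rpow_le_rpow_of_exponent_le (by norm_num) hexp

end H592R3
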