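import Mathlib
import Pool.Agent.H592R3.Csp3
import Pool.Agent.H592R4.Rows
import Pool.Agent.H592R6.PrivG

/-!
The moments of the gain of a proof system on planted constraint satisfaction problems.
-/

set_option linter.unusedSectionVars false

namespace H592R3.MbU

open Finset DomAC0 H568R2 SmallDepth H592R3.Mb2 H592R3.Mb3

section Am
variable {m n r : ℕ} {J : Type}

open Classical in
theorem game_mom [Fintype J] (hn : 1 ≤ n) (hm : 1 ≤ m) (s : Fin m → Fin (r + 1) → Fin m)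
    (hs : ∀ i, s i 0 = i)
    (G : Game J) (σ : ((Fin m × (Fin (r + 1) → Fin n)) → Bool) → (J → Bool))
    (hσ : ∀ j, Junta 1 (fun x => σ x j)) {h : ℕ} (hh : 1 ≤ h) {d τ : ℕ} (hτ : 3 ≤ τ)
    {S g : ℕ} (hG : G.Bounded d S g) {L u l : ℕ} (hL : 2 ≤ L) (hl : 1 ≤ l)
    (hlen : Fintype.card J + S + 2 ≤ 2 ^ l)
    (hexp : ∀ H : Finset (Fin m), L ≤ H.card → m - (touched s H).card ≤ u)
    {y q c ε : ℝ} (hy0 : 0 < y) (hy1 : y ≤ 1) (hq : q = (1 / (τ : ℝ)) ^ d)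
    (hcyq : 2 ≤ c * (y * q)) (hc : 1 ≤ c)
    (hε : d * ((S * (Fintype.card J + S + 1) : ℕ) : ℝ) *
      (12 * h * (1 / (τ : ℝ))) ^ (h + 1) ≤ ε) {Bs : ℝ}
    (hBs : ∑ H ∈ univ.filter (fun H : Finset (Fin m) => 1 ≤ H.card ∧ H.card < L),
      c ^ H.card * (((2 * h) ^ H.card *
        (H.card ^ H.card * n ^ (m - (touched s H).card)) : ℕ) : ℝ) ≤ Bs)
    (hBN : S * 2 ^ m * (c ^ (2 * L) * (ctc (h * l) L n u : ℝ)) + Bs ≤ (n : ℝ) ^ m) (t : ℕ)
    : Ex (vp (y / 2)) (fun X => (Mb2.ms s σ G X) ^ t) ≤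
    2 ^ g * ((S * 2 ^ m * (c ^ (2 * L) * (ctc (h * l) L n u : ℝ)) + Bs) ^ t +
      t * ((n : ℝ) ^ m) ^ t * (((S : ℝ) + 1) * 2 ^ m *
        c ^ (2 * L)) * ε) := by
  have hp0 : 0 ≤ y / 2 := by linarith
  have hp1 : y / 2 ≤ 1 := by linarith
  have hε0 : 0 ≤ ε := le_trans (by positivity) hε
  have hc0 : 0 ≤ c := by linarith
  have hBs0 : 0 ≤ Bs := le_trans (Finset.sum_nonneg fun H _ => by positivity) hBs
  exact Mb2.game_moment s σ hp0 hp1 (d := d) (S := S)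
    (t := t) (R := (S * 2 ^ m * (c ^ (2 * L) * (ctc (h * l) L n u : ℝ)) + Bs) ^ t +
      t * ((n : ℝ) ^ m) ^ t * (((S : ℝ) + 1) * 2 ^ m *
        c ^ (2 * L)) * ε) (by positivity) (by
      intro C hC1 hC2
      exact Mb3.circ_moment hn s C σ hσ hh hτ hC1 hC2 hL hl hlen hexp hy0 hy1 hq hcyq hc hε hBs hBN t)
    G g hG

end Am

open Classical in
/-- The moments of the gain on planted constraint satisfaction problems. -/
theorem csp_mom (Q d m' b k g e : ℕ) (hQ : 6 ≤ Q) (hd : 1 ≤ d) (hm' : 2 ≤ m')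
    (he : e = d * (E1 Q * m' + k))
    (hA : 2 * (12 * (2 * e)) ^ 16 ≤ 2 ^ b)
    (hB1 : 2 ^ (2 * Q + 16) * b ^ 4 ≤ 2 ^ b)
    (hB2 : 4 * Q + 8 ≤ d * b)
    (hg : 2 * (g + 2) ≤ d * b * k)
    (s : Fin (Q * m') → Fin (2 * Q ^ 2 + 14 + 1) → Fin (Q * m')) (hs : ∀ i, s i 0 = i)
    (hexp : ∀ H : Finset (Fin (Q * m')), m' ≤ H.card → Q * m' - (touched s H).card ≤ m')
    (hsm : ∀ H : Finset (Fin (Q * m')), 1 ≤ H.card → H.card < m' →
        3 * H.card ≤ (touched s H).card)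
    {J : Type} (G : Game J) {S : ℕ} (hG : G.Bounded d S g)
    (σ : ((Fin (Q * m') × (Fin (2 * Q ^ 2 + 14 + 1) → Fin (2 ^ (2 * d * b)))) → Bool) →
      (J → Bool))
    (hσ : ∀ j, Junta 1 (fun x => σ x j))
    (hcon : S ≤ 2 ^ ((2 * Q - 12) * (d * b * m'))) :
    Ex (vp ((1 / ((2 : ℝ) ^ (d * b)) ^ 3) / 2)) (fun X : (Fin (Q * m') × (Fin (2 * Q ^ 2 + 14 + 1) →
      Fin (2 ^ (2 * d * b)))) → Bool => (Mb2.ms s σ G X) ^ k) <
      (((2 : ℝ) ^ (2 * d * b)) ^ (Q * m') / 6) ^ k := by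
  by_contra hcon2
  push Not at hcon2
  obtain ⟨φ, hφ⟩ : ∃ φ : J → Option (Fin (Q * m') ×
      (Fin (2 * Q ^ 2 + 14 + 1) → Fin (2 ^ (2 * d * b)))) × Bool,
      ∀ j X, σ X j = std X (φ j) := by
    choose φ hφ using fun j => junta_std (hσ j)
    exact ⟨φ, hφ⟩
  have hev : ∀ X, Mb2.ms s (fun X => std X) (gmap φ G) X = Mb2.ms s σ G X := fun X =>
    Mb2.ms_gmap s σ φ hφ X G
  have hn1 : 1 ≤ 2 ^ (2 * d * b) := Nat.one_le_two_pow
  have hE : 1 ≤ E1 Q := by unfold E1; omega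
  have hm'e : m' ≤ e := by
    rw [he]
    calc m' = 1 * (1 * m') := by ring
      _ ≤ d * (E1 Q * m' + k) := Nat.mul_le_mul hd
          ((Nat.mul_le_mul_right m' hE).trans (Nat.le_add_right _ _))
  have hQe : Q * m' ≤ e := by
    rw [he]
    calc Q * m' ≤ E1 Q * m' := Nat.mul_le_mul_right _ (by unfold E1 E0; omega)
      _ ≤ E1 Q * m' + k := Nat.le_add_right _ _
      _ = 1 * (E1 Q * m' + k) := (one_mul _).symm
      _ ≤ d * (E1 Q * m' + k) := Nat.mul_le_mul_right _ hd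
  have he1 : 1 ≤ e := by omega
  have hτ3 : 3 ≤ 2 ^ b := by
    refine le_trans ?_ hA
    have h2 : 12 * (2 * e) ≤ (12 * (2 * e)) ^ 16 := Nat.le_self_pow (by norm_num) _
    omega
  obtain ⟨T, hT⟩ : ∃ T : ℝ, T = (2 : ℝ) ^ (d * b) := ⟨_, rfl⟩
  have hT0 : 0 < T := by rw [hT]; positivity
  have hT1 : 1 ≤ T := by rw [hT]; exact one_le_pow₀ (by norm_num)
  have hTτ : T = ((2 ^ b : ℕ) : ℝ) ^ d := by rw [hT]; push_cast; rw [← pow_mul, mul_comm]
  have hnT : ((2 ^ (2 * d * b) : ℕ) : ℝ) = T ^ 2 := by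
    rw [hT, ← pow_mul]; push_cast; congr 1; ring
  have hq : (1 / ((2 ^ b : ℕ) : ℝ)) ^ d = 1 / T := by rw [one_div_pow, hTτ]
  have hτT : ((2 ^ b : ℕ) : ℝ) ≤ T := by
    have h2 : 2 ^ b ≤ 2 ^ (d * b) :=
      Nat.pow_le_pow_right (by norm_num) (Nat.le_mul_of_pos_left b (by omega))
    rw [hT]
    exact_mod_cast h2
  have hAT : 2 * (12 * ((2 * e : ℕ) : ℝ)) ^ 16 ≤ T := by
    refine le_trans ?_ hτT
    exact_mod_cast hA
  have heR : (1 : ℝ) ≤ e := by exact_mod_cast he1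
  have h24 : 12 * ((2 * e : ℕ) : ℝ) = 24 * e := by push_cast; ring
  have h12 : 24 * (e : ℝ) ≤ (24 * (e : ℝ)) ^ 16 := by
    calc 24 * (e : ℝ) = (24 * (e : ℝ)) ^ 1 := (pow_one _).symm
      _ ≤ (24 * (e : ℝ)) ^ 16 := pow_le_pow_right₀ (by linarith only [heR]) (by norm_num)
  have hAT' : 2 * (24 * (e : ℝ)) ^ 16 ≤ T := by rw [← h24]; exact hAT
  have hQeR : ((Q * m' : ℕ) : ℝ) ≤ e := by exact_mod_cast hQe
  have hm'eR : (m' : ℝ) ≤ e := by exact_mod_cast hm'e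
  have h8 : 8 * (((Q * m' : ℕ) : ℝ)) ≤ T := by linarith only [hQeR, hAT', h12, heR]
  have hT2 : 2 ≤ T := by linarith only [hAT', h12, heR]
  have hB2T : (2 : ℝ) ^ (4 * Q + 8) ≤ T := by
    rw [hT]
    exact pow_le_pow_right₀ (by norm_num) hB2
  have hQm : 1 ≤ Q * m' := Nat.one_le_iff_ne_zero.2 (by positivity)
  have hbig : 8 * ((2 * e : ℕ) : ℝ) * m' * ((Q * m' : ℕ) : ℝ) ≤ T := by
    calc 8 * ((2 * e : ℕ) : ℝ) * m' * ((Q * m' : ℕ) : ℝ) =
          16 * ((e : ℝ) * m' * ((Q * m' : ℕ) : ℝ)) := by push_cast; ring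
      _ ≤ 16 * ((e : ℝ) * e * e) := by gcongr
      _ = 16 * (e : ℝ) ^ 3 := by ring
      _ ≤ 24 ^ 16 * (e : ℝ) ^ 16 := by
          apply mul_le_mul (by norm_num) (pow_le_pow_right₀ heR (by norm_num))
            (by positivity) (by norm_num)
      _ = (24 * (e : ℝ)) ^ 16 := (mul_pow _ _ _).symm
      _ ≤ T := by
          have : (0 : ℝ) ≤ (24 * (e : ℝ)) ^ 16 := by positivity
          linarith only [this, hAT']
  have hBs := Mb2.small_sum (h := 2 * e) (L := m') s hT1 hnT hsm hbig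
  have hSR : (S : ℝ) ≤ T ^ ((2 * Q - 12) * m') := by
    rw [hT, ← pow_mul]
    have : (S : ℝ) ≤ ((2 ^ ((2 * Q - 12) * (d * b * m')) : ℕ) : ℝ) := by exact_mod_cast hcon
    refine this.trans (le_of_eq ?_)
    push_cast
    congr 1
    ring
  have hJc : (Fintype.card (Option (Fin (Q * m') ×
      (Fin (2 * Q ^ 2 + 14 + 1) → Fin (2 ^ (2 * d * b)))) × Bool) : ℝ) =
      (Q * m' * (T ^ 2) ^ (2 * Q ^ 2 + 14 + 1) + 1) * 2 := by
    rw [Fintype.card_prod, Fintype.card_option, Fintype.card_prod, Fintype.card_fun,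
      Fintype.card_fin, Fintype.card_fin, Fintype.card_fin, Fintype.card_bool]
    rw [← hnT]
    push_cast
    ring
  have h8' : 8 * ((Q : ℝ) * m') ≤ T := by push_cast at h8; exact h8
  have hT576 : 576 ≤ T := by
    have h3 : (24 : ℝ) ^ 2 ≤ (24 * (e : ℝ)) ^ 16 := by
      calc (24 : ℝ) ^ 2 ≤ (24 * (e : ℝ)) ^ 2 :=
            pow_le_pow_left₀ (by norm_num) (by linarith only [heR]) 2
        _ ≤ (24 * (e : ℝ)) ^ 16 := pow_le_pow_right₀ (by linarith only [heR]) (by norm_num)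
    linarith only [h3, hAT']
  obtain ⟨l, hldef⟩ : ∃ l, l = d * b * (E0 Q * m') := ⟨_, rfl⟩
  have hb0 : 1 ≤ b := by
    rcases Nat.eq_zero_or_pos b with h0 | h0
    · rw [h0] at hτ3; norm_num at hτ3
    · exact h0
  have hE0pos : 1 ≤ E0 Q := by unfold E0; omega
  have hl1 : 1 ≤ l := by rw [hldef]; exact Nat.one_le_iff_ne_zero.2 (by positivity)
  have hlen : Fintype.card (Option (Fin (Q * m') ×
      (Fin (2 * Q ^ 2 + 14 + 1) → Fin (2 ^ (2 * d * b)))) × Bool) + S + 2 ≤ 2 ^ l := by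
    have h1 := Mb3.len_bound Q m' S _ (2 * Q ^ 2 + 14 + 1) T hT576 hm' h8' hSR hJc
    have h2 : T ^ ((4 * Q + 2 * (2 * Q ^ 2 + 14 + 1) + 13) * m') = (2 : ℝ) ^ l := by
      rw [hT, ← pow_mul, hldef]
      rfl
    rw [h2] at h1
    exact_mod_cast h1
  have hle : l ≤ e * b := by
    rw [hldef, he]
    calc d * b * (E0 Q * m') = d * (E0 Q * m') * b := by ring
      _ ≤ d * (E1 Q * m' + k) * b := by
          apply Nat.mul_le_mul_right
          apply Nat.mul_le_mul_left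
          refine le_trans ?_ (Nat.le_add_right _ _)
          exact Nat.mul_le_mul_right _ (by unfold E1; omega)
  have hB1T : (2 : ℝ) ^ (2 * Q + 16) * (b : ℝ) ^ 4 ≤ T := by
    refine le_trans ?_ hτT
    exact_mod_cast hB1
  have hfirst := Mb3.first_term Q m' e b l S hm' hQ T he1 hm'e hle hAT hB1T hSR
  obtain ⟨X, hX⟩ : ∃ X : ℝ, X = (T ^ 2) ^ (Q * m') := ⟨_, rfl⟩
  have hX0 : 0 < X := by rw [hX]; positivity
  have hctb : S * 2 ^ (Q * m') * ((2 * T ^ 4) ^ (2 * m') *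
      (ctc (2 * e * l) m' (2 ^ (2 * d * b)) m' : ℝ)) ≤ X / T := by
    rw [hX]
    refine le_trans (le_of_eq ?_) hfirst
    unfold ctc
    push_cast
    have hnT' : (2 : ℝ) ^ (2 * d * b) = T ^ 2 := by
      rw [← hnT]; push_cast; rfl
    rw [hnT']
  have hctb0 : 0 ≤ S * 2 ^ (Q * m') * ((2 * T ^ 4) ^ (2 * m') *
      (ctc (2 * e * l) m' (2 ^ (2 * d * b)) m' : ℝ)) := by positivity
  have hXT : X / T + X / T ≤ X := by
    rw [← add_div, div_le_iff₀ hT0]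
    have := mul_le_mul_of_nonneg_left hT2 hX0.le
    linarith only [this]
  have hcore := game_mom (m := Q * m') (n := 2 ^ (2 * d * b)) (r := 2 * Q ^ 2 + 14) hn1 hQm s hs
    (gmap φ G) (fun X => std X) std_junta (h := 2 * e) (by omega) (d := d) (τ := 2 ^ b) hτ3
    (gmap_bounded φ G g hG) (L := m') (u := m') (l := l) hm' hl1 hlen hexp (y := 1 / T ^ 3) (q := 1 / T)
    (c := 2 * T ^ 4) (by positivity) (by
      rw [div_le_one (by positivity)]; exact one_le_pow₀ hT1) hq.symm (by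
      apply le_of_eq; field_simp) (by
      have : 1 ≤ T ^ 4 := one_le_pow₀ hT1
      linarith only [this]) (le_refl _) hBs (by
      rw [← hX, hnT, ← hX]
      linarith only [hctb, hXT]) k
  have hmsX : (fun X => Mb2.ms s (fun X => std X) (gmap φ G) X ^ k) =
      fun X => Mb2.ms s σ G X ^ k := by
    funext X; rw [hev]
  rw [hmsX] at hcore
  rw [← hT] at hcon2
  have hnT2 : ((2 : ℝ) ^ (2 * d * b)) = T ^ 2 := by rw [← hnT]; push_cast; rfl
  rw [hnT2] at hcon2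
  replace hcore := hcon2.trans hcore
  rw [hnT] at hcore
  refine Mb3.am_arith Q d m' k g S _ e hQ hd hm' T ((2 ^ b : ℕ) : ℝ) hTτ he (by exact_mod_cast hA)
    hB2T ?_ hSR hJc
    (S * 2 ^ (Q * m') * ((2 * T ^ 4) ^ (2 * m') *
      (ctc (2 * e * l) m' (2 ^ (2 * d * b)) m' : ℝ)) + (T ^ 2) ^ (Q * m') / T) ?_ ?_ hT0.le
      (by positivity) hcore
  · rw [hT, ← pow_mul, ← pow_mul]
    apply pow_le_pow_right₀ (by norm_num)
    omega
  · rw [← hX]; positivity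
  · rw [← hX]
    linarith only [hctb]


end H592R3.MbU
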