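import Mathlib
import Pool.Agent.H592R6.CspU

/-!
Sound proof systems prove the unsatisfiability of few planted-free instances.
-/

set_option linter.unusedSectionVars false

namespace H592R3.MbU

open Finset DomAC0 H568R2 SmallDepth H592R3.Mb2 H592R3.Mb3

section Fam
variable {m n r : ℕ} {J : Type}

open Classical in
/-- The gain of a family of circuits. -/
lemma ms_fam (s : Fin m → Fin (r + 1) → Fin m) {N g : ℕ}
    (p : Fin N → ℝ) (hp0 : ∀ i, 0 ≤ p i) (K : Fin N → Fin (2 ^ g) → Circuit J)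
    (σ : ((Fin m × (Fin (r + 1) → Fin n)) → Bool) → (J → Bool))
    (X : (Fin m × (Fin (r + 1) → Fin n)) → Bool)
    (z : Fin N → Fin (2 ^ g)) (hz : ∀ a : Fin m → Fin n,
      (1 : ℝ) / 3 ≤ ∑ i, p i *
        (if (K i (z i)).eval (σ X) ≠ (K i (z i)).eval (σ (plant (vr s a) univ X))
          then (1 : ℝ) else 0)) :
    (n : ℝ) ^ m / 3 ≤
      Mb2.ms s σ (Game.arthur N p (fun i => .merlin g (fun z => .verify (K i z)))) X := by
  have hms : Mb2.ms s σ (Game.arthur N p (fun i => .merlin g (fun z => .verify (K i z)))) X =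
      ∑ i, p i * ⨆ z, Mb2.cntS s σ (K i z) X := rfl
  rw [hms]
  have h1 : ∑ i, p i * Mb2.cntS s σ (K i (z i)) X ≤ ∑ i, p i * ⨆ z, Mb2.cntS s σ (K i z) X := by
    refine Finset.sum_le_sum fun i _ => mul_le_mul_of_nonneg_left ?_ (hp0 i)
    exact Mb2.le_sup (fun z => Mb2.cntS s σ (K i z) X) (z i)
  refine le_trans ?_ h1
  have h2 : ∑ a : Fin m → Fin n, (1 : ℝ) / 3 = (n : ℝ) ^ m / 3 := by
    rw [Finset.sum_const, Finset.card_univ, Fintype.card_fun, Fintype.card_fin, Fintype.card_fin,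
      nsmul_eq_mul]
    push_cast
    ring
  rw [← h2]
  unfold Mb2.cntS
  simp only [Finset.mul_sum]
  rw [Finset.sum_comm]
  exact Finset.sum_le_sum fun a _ => hz a

end Fam

section Priv
variable {J : Type} {k a b : ℕ}

/-- A transcript that is good on one input and bad on the others. -/
lemma priv_sep (V : PrivateProof J k a b) (cls : Set (PrivateProof.Strategy k a b)) (θ : ℝ)
    (e2 : Option (Fin k × Fin a) ≃ Fin (k * a + 1))
    (x : J → Bool) (hx : ∃ P ∈ cls, θ + 1 / 3 ≤ V.acc x P) :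
    ∃ t : V.Ω → (Fin k → Fin a → Bool) × (Fin k → Fin b → Bool), ∀ y : J → Bool,
      (∀ P ∈ cls, V.acc y P ≤ θ) →
      (1 : ℝ) / 3 ≤ letI := V.fin; ∑ ω, V.prob ω *
        (if (chkOf V e2 ω (t ω)).eval x ≠ (chkOf V e2 ω (t ω)).eval y then (1 : ℝ) else 0) := by
  classical
  let _ := V.fin
  obtain ⟨P, hPP, hP⟩ := hx
  obtain ⟨R, hR⟩ : ∃ R : V.Ω → Fin k → Fin b → Bool, ∀ ω,
      (∃ r, V.Answers x P ω r ∧ (V.circ ω r).eval x = true) →
      V.Answers x P ω (R ω) ∧ (V.circ ω (R ω)).eval x = true := by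
    have h0 : ∀ ω, ∃ r : Fin k → Fin b → Bool,
        (∃ r, V.Answers x P ω r ∧ (V.circ ω r).eval x = true) →
        V.Answers x P ω r ∧ (V.circ ω r).eval x = true := by
      intro ω
      by_cases h : ∃ r, V.Answers x P ω r ∧ (V.circ ω r).eval x = true
      · obtain ⟨r, hr⟩ := h
        exact ⟨r, fun _ => hr⟩
      · exact ⟨fun _ _ => false, fun h' => absurd h' h⟩
    choose R hR using h0
    exact ⟨R, hR⟩
  refine ⟨fun ω => (V.msg x ω (R ω), R ω), ?_⟩
  intro y hy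
  have hno' := hy P hPP
  unfold PrivateProof.acc at hP hno'
  have hle : ∑ ω, (if ∃ r, V.Answers x P ω r ∧ (V.circ ω r).eval x = true then V.prob ω else 0)
      ≤ ∑ ω, ((if ∃ r, V.Answers y P ω r ∧ (V.circ ω r).eval y = true then V.prob ω else 0) +
        V.prob ω * (if (chkOf V e2 ω (V.msg x ω (R ω), R ω)).eval x ≠
          (chkOf V e2 ω (V.msg x ω (R ω), R ω)).eval y then (1 : ℝ) else 0)) := by
    refine Finset.sum_le_sum fun ω _ => ?_
    have hω := V.nonneg ω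
    by_cases h1 : ∃ r, V.Answers x P ω r ∧ (V.circ ω r).eval x = true
    · obtain ⟨hA, hE⟩ := hR ω h1
      rw [if_pos h1]
      have hx1 : (chkOf V e2 ω (V.msg x ω (R ω), R ω)).eval x = true :=
        (outs_eval V e2 ω (R ω) _ x).2 ⟨rfl, hE⟩
      by_cases h2 : (chkOf V e2 ω (V.msg x ω (R ω), R ω)).eval y = true
      · obtain ⟨hm, hE'⟩ := (outs_eval V e2 ω (R ω) _ y).1 h2
        have h3 : ∃ r, V.Answers y P ω r ∧ (V.circ ω r).eval y = true := by
          refine ⟨R ω, fun t => ?_, hE'⟩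
          rw [hm]
          exact hA t
        rw [if_pos h3]
        have : 0 ≤ V.prob ω * (if (chkOf V e2 ω (V.msg x ω (R ω), R ω)).eval x ≠
            (chkOf V e2 ω (V.msg x ω (R ω), R ω)).eval y then (1 : ℝ) else 0) := by
          apply mul_nonneg hω
          split_ifs <;> norm_num
        linarith
      · have h3 : (chkOf V e2 ω (V.msg x ω (R ω), R ω)).eval x ≠
            (chkOf V e2 ω (V.msg x ω (R ω), R ω)).eval y := by
          rw [hx1]
          exact fun h => h2 h.symm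
        rw [if_pos h3, mul_one]
        split_ifs <;> linarith
    · rw [if_neg h1]
      apply add_nonneg
      · split_ifs <;> linarith
      · apply mul_nonneg hω
        split_ifs <;> norm_num
  rw [Finset.sum_add_distrib] at hle
  show (1 : ℝ) / 3 ≤ ∑ ω, V.prob ω *
        (if (chkOf V e2 ω (V.msg x ω (R ω), R ω)).eval x ≠
          (chkOf V e2 ω (V.msg x ω (R ω), R ω)).eval y then (1 : ℝ) else 0)
  linarith

end Priv

open Classical in
/-- A sound proof system proves few instances. -/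
theorem rare (Q d m' b k g e : ℕ) (hQ : 6 ≤ Q) (hd : 1 ≤ d) (hm' : 2 ≤ m')
    (he : e = d * (E1 Q * m' + k))
    (hA : 2 * (12 * (2 * e)) ^ 16 ≤ 2 ^ b)
    (hB1 : 2 ^ (2 * Q + 16) * b ^ 4 ≤ 2 ^ b)
    (hB2 : 4 * Q + 8 ≤ d * b)
    (hg : 2 * (g + 2) ≤ d * b * k)
    (s : Fin (Q * m') → Fin (2 * Q ^ 2 + 14 + 1) → Fin (Q * m')) (hs : ∀ i, s i 0 = i)
    (hexp : ∀ H : Finset (Fin (Q * m')), m' ≤ H.card → Q * m' - (touched s H).card ≤ m')
    (hsm : ∀ H : Finset (Fin (Q * m')), 1 ≤ H.card → H.card < m' →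
        3 * H.card ≤ (touched s H).card)
    {J : Type}
    (σ : ((Fin (Q * m') × (Fin (2 * Q ^ 2 + 14 + 1) → Fin (2 ^ (2 * d * b)))) → Bool) →
      (J → Bool))
    (hσ : ∀ j, Junta 1 (fun x => σ x j))
    {kk a bb d0 S : ℕ} (V : PrivateProof J kk a bb) (cls : Set (PrivateProof.Strategy kk a bb))
    (θ : ℝ) (hV : V.Bounded d0 S) (hd0 : d0 + 2 ≤ d) (hgg : kk * a + kk * bb ≤ g)
    (hcon : S + kk * a + 2 ≤ 2 ^ ((2 * Q - 12) * (d * b * m')))
    (hno : ∀ X (α : Fin (Q * m') → Fin (2 ^ (2 * d * b))), ∀ P ∈ cls,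
      V.acc (σ (plant (vr s α) univ X)) P ≤ θ) :
    Ex (vp ((1 / ((2 : ℝ) ^ (d * b)) ^ 3) / 2)) (fun X : (Fin (Q * m') ×
      (Fin (2 * Q ^ 2 + 14 + 1) → Fin (2 ^ (2 * d * b)))) → Bool =>
      if ∃ P ∈ cls, θ + 1 / 3 ≤ V.acc (σ X) P then (1 : ℝ) else 0) ≤ (1 / 2) ^ k := by
  let _ := V.fin
  obtain ⟨e2⟩ : Nonempty (Option (Fin kk × Fin a) ≃ Fin (kk * a + 1)) :=
    ⟨Fintype.equivFinOfCardEq (by simp)⟩
  obtain ⟨e1⟩ : Nonempty (((Fin kk → Fin a → Bool) × (Fin kk → Fin bb → Bool)) ≃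
      Fin (2 ^ (kk * a + kk * bb))) :=
    ⟨Fintype.equivFinOfCardEq (by
      rw [Fintype.card_prod, Fintype.card_fun, Fintype.card_fun, Fintype.card_fun,
        Fintype.card_fun, Fintype.card_fin, Fintype.card_fin, Fintype.card_fin,
        Fintype.card_bool, ← pow_mul, ← pow_mul, ← pow_add, mul_comm a kk, mul_comm bb kk])⟩
  obtain ⟨eq⟩ : Nonempty (V.Ω ≃ Fin (Fintype.card V.Ω)) := ⟨Fintype.equivFin V.Ω⟩
  have hp1 : ∑ i, V.prob (eq.symm i) = 1 := by
    rw [← V.total]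
    exact Equiv.sum_comp eq.symm V.prob
  obtain ⟨G, hG⟩ : ∃ G : Game J, G = Game.arthur (Fintype.card V.Ω) (fun i => V.prob (eq.symm i))
      (fun i => .merlin (kk * a + kk * bb) (fun z => .verify (chkOf V e2 (eq.symm i) (e1.symm z)))) :=
    ⟨_, rfl⟩
  have hGb : G.Bounded d (S + kk * a + 2) g := by
    rw [hG]
    refine ⟨fun i => V.nonneg _, hp1, fun i => ⟨hgg, fun z => ⟨?_, ?_⟩⟩⟩
    · exact (outs_depth V e2 hV _ _ _).trans hd0
    · have h1 := (hV (eq.symm i) (e1.symm z).2).1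
      show (V.circ (eq.symm i) (e1.symm z).2).size + (kk * a + 1) + 1 ≤ S + kk * a + 2
      omega
  have hmom := csp_mom Q d m' b k g e hQ hd hm' he hA hB1 hB2 hg s hs hexp hsm G hGb σ hσ hcon
  obtain ⟨W, hW⟩ : ∃ W : ℝ, W = ((2 : ℝ) ^ (2 * d * b)) ^ (Q * m') := ⟨_, rfl⟩
  have hW0 : 0 < W := by rw [hW]; positivity
  rw [← hW] at hmom
  have hp0 : 0 ≤ (1 / ((2 : ℝ) ^ (d * b)) ^ 3) / 2 := by positivity
  have hp1' : (1 / ((2 : ℝ) ^ (d * b)) ^ 3) / 2 ≤ 1 := by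
    have h1 : (1 : ℝ) ≤ ((2 : ℝ) ^ (d * b)) ^ 3 := one_le_pow₀ (one_le_pow₀ (by norm_num))
    have h2 : 1 / ((2 : ℝ) ^ (d * b)) ^ 3 ≤ 1 := by
      rw [div_le_one (by positivity)]; exact h1
    linarith
  -- the gain on the proved instances
  have hpt : ∀ X, (W / 3) ^ k * (if ∃ P ∈ cls, θ + 1 / 3 ≤ V.acc (σ X) P then (1 : ℝ) else 0) ≤
      (Mb2.ms s σ G X) ^ k := by
    intro X
    by_cases hX : ∃ P ∈ cls, θ + 1 / 3 ≤ V.acc (σ X) P
    · rw [if_pos hX, mul_one]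
      apply pow_le_pow_left₀ (by positivity)
      obtain ⟨t, ht⟩ := priv_sep V cls θ e2 (σ X) hX
      rw [hG]
      have h2 := ms_fam s (fun i => V.prob (eq.symm i)) (fun i => V.nonneg _)
        (fun i z => chkOf V e2 (eq.symm i) (e1.symm z)) σ X
        (fun i => e1 (t (eq.symm i))) (fun α => by
          simp only [Equiv.symm_apply_apply]
          rw [Equiv.sum_comp eq.symm (fun ω => V.prob ω *
            (if (chkOf V e2 ω (t ω)).eval (σ X) ≠
              (chkOf V e2 ω (t ω)).eval (σ (plant (vr s α) univ X)) then (1 : ℝ) else 0))]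
          exact ht _ (hno X α))
      refine le_trans (le_of_eq ?_) h2
      rw [hW]
      push_cast
      rfl
    · rw [if_neg hX, mul_zero]
      exact pow_nonneg (Mb2.ms_nonneg s σ X G g hGb) k
  have h3 : (W / 3) ^ k * Ex (vp ((1 / ((2 : ℝ) ^ (d * b)) ^ 3) / 2)) (fun X : (Fin (Q * m') ×
      (Fin (2 * Q ^ 2 + 14 + 1) → Fin (2 ^ (2 * d * b)))) → Bool =>
      if ∃ P ∈ cls, θ + 1 / 3 ≤ V.acc (σ X) P then (1 : ℝ) else 0) ≤ (W / 6) ^ k := by
    refine le_trans (le_of_eq ?_) ((Ex_mono (vp_nonneg hp0 hp1') hpt).trans hmom.le)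
    rw [Ex_smul]
  have h4 : (W / 6) ^ k = (W / 3) ^ k * (1 / 2) ^ k := by
    rw [← mul_pow]; congr 1; ring
  rw [h4] at h3
  exact le_of_mul_le_mul_left h3 (by positivity)

end H592R3.MbU
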