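import Mathlib
import Pool.Agent.H592R3.Cnf3
import Pool.Agent.H592R6.PrivU

/-!
The parameters of the theorem on sound proof systems.
-/

set_option linter.unusedSectionVars false

namespace H592R3.MbU

open Finset DomAC0 H568R2 SmallDepth H592R3.Mb2 H592R3.Mb3

open Classical in
theorem rare_param (ε : ℝ) (hε : 0 < ε) : ∃ Q : ℕ, 6 ≤ Q ∧ ∃ C : ℝ, 0 < C ∧
    ∀ n d kk a bb t w : ℕ, 2 ≤ n → 1 ≤ d →
    C * (d * Real.log (n + kk * (a + bb) + t)) ≤ w → w ≤ n →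
    ∃ (D b m' : ℕ) (sc : Fin (Q * m') → Fin (2 * Q ^ 2 + 14 + 1) → Fin (Q * m')),
    1 ≤ D ∧ 1 ≤ b ∧ 2 ≤ m' ∧ (2 * Q ^ 2 + 14 + 1) * (2 * D * b) + 1 ≤ w ∧
    Q * m' * (2 * D * b + 1) ≤ n ∧ 2 * (24 * (Q * m')) ^ 16 ≤ 2 ^ (D * b) ∧
    (1 - ε) * n ≤ (((2 * Q - 12) * (D * b * m') : ℕ) : ℝ) ∧
    ∀ (J : Type) (σ : ((Fin (Q * m') × (Fin (2 * Q ^ 2 + 14 + 1) → Fin (2 ^ (2 * D * b)))) →
      Bool) → (J → Bool)), (∀ j, Junta 1 (fun x => σ x j)) →
    ∀ (V : PrivateProof J kk a bb) (cls : Set (PrivateProof.Strategy kk a bb)) (θ : ℝ) (S : ℕ),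
    V.Bounded d S → (S : ℝ) ≤ 2 ^ ((1 - ε) * n) →
    (∀ X (α : Fin (Q * m') → Fin (2 ^ (2 * D * b))), ∀ P ∈ cls,
      V.acc (σ (plant (vr sc α) univ X)) P ≤ θ) →
    Ex (vp ((1 / ((2 : ℝ) ^ (D * b)) ^ 3) / 2)) (fun X : (Fin (Q * m') ×
      (Fin (2 * Q ^ 2 + 14 + 1) → Fin (2 ^ (2 * D * b)))) → Bool =>
      if ∃ P ∈ cls, θ + 1 / 3 ≤ V.acc (σ X) P then (1 : ℝ) else 0) ≤ (1 / 2) ^ t := by
  obtain ⟨ε', hε'⟩ : ∃ ε' : ℝ, ε' = min (ε / 2) (1 / 4) := ⟨_, rfl⟩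
  have hε'0 : 0 < ε' := by rw [hε']; exact lt_min (by linarith) (by norm_num)
  have hε'1 : ε' ≤ ε / 2 := by rw [hε']; exact min_le_left _ _
  have hε'2 : ε' ≤ 1 / 4 := by rw [hε']; exact min_le_right _ _
  obtain ⟨Q, hQ6, _, C', hC', hpar⟩ := params4 ε' hε'0
  obtain ⟨C, hC⟩ : ∃ C : ℝ, C = 6 * C' + 8 + 4 / ε := ⟨_, rfl⟩
  have h4ε : 0 < 4 / ε := by positivity
  have hC0 : 0 < C := by rw [hC]; positivity
  refine ⟨Q, hQ6, C, hC0, ?_⟩
  intro n d kk a bb t w hn hd hw hwn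
  have hnR : (2 : ℝ) ≤ n := by exact_mod_cast hn
  have hdR : (1 : ℝ) ≤ d := by exact_mod_cast hd
  have hwnR : (w : ℝ) ≤ n := by exact_mod_cast hwn
  obtain ⟨G, hG⟩ : ∃ G : ℝ, G = n + kk * (a + bb) + t := ⟨_, rfl⟩
  rw [← hG] at hw
  have hkab : (0 : ℝ) ≤ (kk : ℝ) * (a + bb) := by positivity
  have ht0 : (0 : ℝ) ≤ t := Nat.cast_nonneg _
  have hG2 : 2 ≤ G := by rw [hG]; linarith
  have hlogG : Real.log 2 ≤ Real.log G := Real.log_le_log (by norm_num) hG2
  have hlog2 := Real.log_two_gt_d9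
  have hlog2' := Real.log_two_lt_d9
  have hlogG0 : 0 ≤ Real.log G := by linarith
  obtain ⟨g, hg⟩ : ∃ g : ℕ, g = kk * a + kk * bb + t * n := ⟨_, rfl⟩
  have hgR : (n : ℝ) + g ≤ G ^ 2 := by
    rw [hg, hG]
    push_cast
    nlinarith [mul_nonneg hkab ht0, mul_nonneg ht0 ht0, mul_nonneg hkab hkab,
      mul_nonneg ht0 (by linarith : (0 : ℝ) ≤ n)]
  have hloggG : Real.log (n + g) ≤ 2 * Real.log G := by
    have h1 : (0 : ℝ) < n + g := by
      have : (0 : ℝ) ≤ g := Nat.cast_nonneg _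
      linarith
    refine (Real.log_le_log h1 hgR).trans (le_of_eq ?_)
    rw [Real.log_pow]; push_cast; ring
  obtain ⟨b, m', k, hb, hm', hA, hB1, hB2, hgk, hBw, hQn, hexp⟩ := hpar n (d + 2) g w hn
    (by omega) (by
      have h2 : ((d + 2 : ℕ) : ℝ) ≤ 3 * d := by
        have : d + 2 ≤ 3 * d := by omega
        exact_mod_cast this
      have h3 : 0 ≤ Real.log ((n : ℝ) + g) := by
        apply Real.log_nonneg
        have : (0 : ℝ) ≤ g := Nat.cast_nonneg _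
        linarith
      calc C' * (((d + 2 : ℕ) : ℝ) * Real.log (n + g)) ≤ C' * ((3 * d) * (2 * Real.log G)) := by
            gcongr
        _ = 6 * C' * (d * Real.log G) := by ring
        _ ≤ C * (d * Real.log G) := by
            apply mul_le_mul_of_nonneg_right _ (by positivity)
            rw [hC]; linarith
        _ ≤ w := hw) hwn
  obtain ⟨sc, hs, hsexp, hssm⟩ := scopes2 Q m' hQ6 (by omega)
  have hE1 : 1 ≤ E1 Q := by unfold E1; omega
  have hQe : Q * m' ≤ (d + 2) * (E1 Q * m' + k) := by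
    calc Q * m' ≤ E1 Q * m' := Nat.mul_le_mul_right _ (by unfold E1 E0; omega)
      _ ≤ E1 Q * m' + k := Nat.le_add_right _ _
      _ = 1 * (E1 Q * m' + k) := (one_mul _).symm
      _ ≤ (d + 2) * (E1 Q * m' + k) := Nat.mul_le_mul_right _ (by omega)
  have hbig : 2 * (24 * (Q * m')) ^ 16 ≤ 2 ^ ((d + 2) * b) := by
    calc 2 * (24 * (Q * m')) ^ 16 ≤ 2 * (12 * (2 * ((d + 2) * (E1 Q * m' + k)))) ^ 16 := by
          apply Nat.mul_le_mul_left
          apply Nat.pow_le_pow_left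
          omega
      _ ≤ 2 ^ b := hA
      _ ≤ 2 ^ ((d + 2) * b) :=
          Nat.pow_le_pow_right (by norm_num) (Nat.le_mul_of_pos_left b (by omega))
  have hεn1 : (1 - ε) * (n : ℝ) ≤ (1 - ε') * n := by
    apply mul_le_mul_of_nonneg_right (by linarith) (by linarith)
  refine ⟨d + 2, b, m', sc, by omega, hb, hm', hBw, hQn, hbig, hεn1.trans hexp, ?_⟩
  intro J σ hσ V cls θ S hV hS hno
  -- the exponent
  have hkt : t ≤ k := by
    have h1 : (d + 2) * b ≤ n := by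
      refine le_trans ?_ hQn
      have hQm : 1 ≤ Q * m' := Nat.one_le_iff_ne_zero.2 (by positivity)
      calc (d + 2) * b ≤ 2 * (d + 2) * b + 1 := by nlinarith
        _ = 1 * (2 * (d + 2) * b + 1) := (one_mul _).symm
        _ ≤ Q * m' * (2 * (d + 2) * b + 1) := Nat.mul_le_mul_right _ hQm
    have h2 : 2 * (t * n) ≤ n * k := by
      calc 2 * (t * n) ≤ 2 * (g + 2) := by rw [hg]; omega
        _ ≤ (d + 2) * b * k := hgk
        _ ≤ n * k := Nat.mul_le_mul_right _ h1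
    by_contra hcon
    push Not at hcon
    have h3 : n * k < n * t := Nat.mul_lt_mul_of_pos_left hcon (by omega)
    have h4 : 2 * (t * n) = n * t + n * t := by ring
    omega
  have hcon : S + kk * a + 2 ≤ 2 ^ ((2 * Q - 12) * ((d + 2) * b * m')) := by
    have hCG : C * Real.log G ≤ n := by
      refine le_trans ?_ (hw.trans hwnR)
      have : Real.log G ≤ d * Real.log G := by nlinarith
      gcongr
    have hGn : G ≤ 2 ^ (3 / 4 * (n : ℝ) - 1) := by
      have h1 : Real.log G ≤ n / 8 := by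
        rw [le_div_iff₀ (by norm_num)]
        have : 8 * Real.log G ≤ C * Real.log G := by
          apply mul_le_mul_of_nonneg_right _ hlogG0
          rw [hC]; linarith
        linarith
      have h2 : n / 8 ≤ Real.log 2 * (3 / 4 * (n : ℝ) - 1) := by nlinarith
      rw [Real.rpow_def_of_pos (by norm_num), ← Real.log_le_iff_le_exp (by linarith)]
      linarith
    have hεn : 2 ≤ ε * n := by
      have h1 : 4 / ε ≤ C := by rw [hC]; linarith
      have h2 : 4 / ε * Real.log 2 ≤ n := by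
        calc 4 / ε * Real.log 2 ≤ C * Real.log G := by gcongr
          _ ≤ n := hCG
      have h3 : 4 * Real.log 2 ≤ ε * n := by
        calc 4 * Real.log 2 = ε * (4 / ε * Real.log 2) := by field_simp
          _ ≤ ε * n := by gcongr
      linarith
    have hka : ((kk * a + 2 : ℕ) : ℝ) ≤ G := by
      rw [hG]
      push_cast
      have : (0 : ℝ) ≤ (kk : ℝ) * bb := by positivity
      nlinarith
    have h1 : (2 : ℝ) ^ (3 / 4 * (n : ℝ) - 1) ≤ 2 ^ ((1 - ε') * n - 1) := by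
      apply Real.rpow_le_rpow_of_exponent_le (by norm_num)
      nlinarith
    have h2 : (2 : ℝ) ^ ((1 - ε) * n) ≤ 2 ^ ((1 - ε') * n - 1) := by
      apply Real.rpow_le_rpow_of_exponent_le (by norm_num)
      nlinarith
    have h3 : (2 : ℝ) ^ ((1 - ε') * n) = 2 ^ ((1 - ε') * n - 1) + 2 ^ ((1 - ε') * n - 1) := by
      rw [Real.rpow_sub (by norm_num), Real.rpow_one]; ring
    have h4 : ((S + kk * a + 2 : ℕ) : ℝ) = S + ((kk * a + 2 : ℕ) : ℝ) := by push_cast; ring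
    have h5 : ((S + kk * a + 2 : ℕ) : ℝ) ≤ 2 ^ ((1 - ε') * n) := by
      rw [h4]; linarith
    have h6 : (2 : ℝ) ^ ((1 - ε') * n) ≤
        2 ^ ((((2 * Q - 12) * ((d + 2) * b * m') : ℕ)) : ℝ) :=
      Real.rpow_le_rpow_of_exponent_le (by norm_num) hexp
    rw [Real.rpow_natCast] at h6
    exact_mod_cast h5.trans h6
  have hmain := rare Q (d + 2) m' b k g ((d + 2) * (E1 Q * m' + k)) hQ6 (by omega) hm' rfl hA hB1
    hB2 hgk sc hs hsexp hssm σ hσ V cls θ hV (le_refl _) (by rw [hg]; omega) hcon hno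
  refine hmain.trans ?_
  exact pow_le_pow_of_le_one (by norm_num) (by norm_num) hkt

end H592R3.MbU
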