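import Mathlib
import Pool.Agent.H592R6.GapDefs
import Pool.Agent.H592R6.RareP

/-!
Random constraint satisfaction problems with a gap.
-/

set_option linter.unusedSectionVars false

namespace H592R3.MbU

open Finset DomAC0 H568R2 SmallDepth H592R3.Mb2 H592R3.Mb3

section Prob
variable {m r N : ℕ}

open Classical in
/-- The probability that a random instance is satisfiable. -/
lemma sat_prob (s : Fin m → Fin r → Fin m) {p : ℝ} (hp0 : 0 ≤ p) (hp1 : p ≤ 1) :
    Ex (vp p) (fun X : (Fin m × (Fin r → Fin N)) → Bool => if Sat s X then (1 : ℝ) else 0) ≤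
      (N : ℝ) ^ m * p ^ m := by
  have h := Hp.ex_union (I := Fin m × (Fin r → Fin N)) hp0 hp1
    (fun a : Fin m → Fin N => univ.image (vr s a))
  have hcard : ∀ a : Fin m → Fin N, (univ.image (vr s a)).card = m := by
    intro a
    rw [Finset.card_image_of_injective _ (vr_inj s a), Finset.card_univ, Fintype.card_fin]
  have h2 : ∑ a : Fin m → Fin N, p ^ (univ.image (vr s a)).card = (N : ℝ) ^ m * p ^ m := by
    simp only [hcard]
    rw [Finset.sum_const, Finset.card_univ, Fintype.card_fun, Fintype.card_fin, Fintype.card_fin,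
      nsmul_eq_mul]
    push_cast
    ring
  rw [h2] at h
  refine le_trans (Ex_mono (vp_nonneg hp0 hp1) fun X => ?_) h
  by_cases hX : Sat s X
  · obtain ⟨a, ha⟩ := hX
    rw [if_pos ⟨a, ha⟩, if_pos]
    refine ⟨a, ?_⟩
    intro i hi
    obtain ⟨c, _, rfl⟩ := Finset.mem_image.1 hi
    exact ha c
  · rw [if_neg hX]
    split_ifs <;> norm_num

open Classical in
/-- The probability that an assignment satisfies many constraints of a random instance. -/
lemma gap_prob (s : Fin m → Fin r → Fin m) {p : ℝ} (hp0 : 0 ≤ p) (hp1 : p ≤ 1) (L : ℕ) :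
    Ex (vp p) (fun X : (Fin m × (Fin r → Fin N)) → Bool =>
      if ∃ a : Fin m → Fin N, L ≤ (univ.filter (fun c => X (vr s a c) = true)).card
      then (1 : ℝ) else 0) ≤ (N : ℝ) ^ m * (2 : ℝ) ^ m * p ^ L := by
  have h := Hp.ex_union (I := Fin m × (Fin r → Fin N)) hp0 hp1
    (fun x : (Fin m → Fin N) × {A : Finset (Fin m) // A.card = L} => x.2.1.image (vr s x.1))
  have hcard : ∀ x : (Fin m → Fin N) × {A : Finset (Fin m) // A.card = L},
      (x.2.1.image (vr s x.1)).card = L := by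
    intro x
    rw [Finset.card_image_of_injective _ (vr_inj s x.1), x.2.2]
  have h2 : ∑ x : (Fin m → Fin N) × {A : Finset (Fin m) // A.card = L},
      p ^ (x.2.1.image (vr s x.1)).card ≤ (N : ℝ) ^ m * (2 : ℝ) ^ m * p ^ L := by
    simp only [hcard]
    rw [Finset.sum_const, Finset.card_univ, Fintype.card_prod, Fintype.card_fun, Fintype.card_fin,
      Fintype.card_fin, nsmul_eq_mul]
    have h3 : Fintype.card {A : Finset (Fin m) // A.card = L} ≤ 2 ^ m := by
      refine (Fintype.card_subtype_le _).trans ?_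
      rw [Fintype.card_finset, Fintype.card_fin]
    have h4 : ((N ^ m * Fintype.card {A : Finset (Fin m) // A.card = L} : ℕ) : ℝ) ≤
        (N : ℝ) ^ m * 2 ^ m := by
      exact_mod_cast Nat.mul_le_mul_left _ h3
    exact mul_le_mul_of_nonneg_right h4 (by positivity)
  refine le_trans (Ex_mono (vp_nonneg hp0 hp1) fun X => ?_) (h.trans h2)
  by_cases hX : ∃ a : Fin m → Fin N, L ≤ (univ.filter (fun c => X (vr s a c) = true)).card
  · rw [if_pos hX, if_pos]
    obtain ⟨a, ha⟩ := hX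
    obtain ⟨A, hA1, hA2⟩ := Finset.exists_subset_card_eq ha
    refine ⟨(a, ⟨A, hA2⟩), ?_⟩
    intro i hi
    obtain ⟨c, hc, rfl⟩ := Finset.mem_image.1 hi
    exact (Finset.mem_filter.1 (hA1 hc)).2
  · rw [if_neg hX]
    split_ifs <;> norm_num

end Prob

/-- The arithmetic of the satisfiability probability. -/
lemma sat_arith (Q D b m' n : ℕ) (ε : ℝ)
    (hexp : (1 - ε) * n ≤ (((2 * Q - 12) * (D * b * m') : ℕ) : ℝ)) :
    ((2 ^ (2 * D * b) : ℕ) : ℝ) ^ (Q * m') * ((1 / ((2 : ℝ) ^ (D * b)) ^ 3) / 2) ^ (Q * m') ≤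
      2 ^ (-((1 - ε) * n / 2)) := by
  have h1 : ((2 ^ (2 * D * b) : ℕ) : ℝ) * ((1 / ((2 : ℝ) ^ (D * b)) ^ 3) / 2) ≤
      1 / 2 ^ (D * b) := by
    have h2 : ((2 ^ (2 * D * b) : ℕ) : ℝ) = ((2 : ℝ) ^ (D * b)) ^ 2 := by
      push_cast
      rw [← pow_mul]; congr 1; ring
    rw [h2]
    have h3 : (0 : ℝ) < 2 ^ (D * b) := by positivity
    have h4 : ((2 : ℝ) ^ (D * b)) ^ 2 * ((1 / ((2 : ℝ) ^ (D * b)) ^ 3) / 2) =
        (1 / 2 ^ (D * b)) / 2 := by
      field_simp
    rw [h4]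
    have h5 : 0 < 1 / (2 : ℝ) ^ (D * b) := by positivity
    linarith
  rw [← mul_pow]
  refine (pow_le_pow_left₀ (by positivity) h1 _).trans ?_
  rw [one_div_pow, ← pow_mul, one_div, ← Real.rpow_natCast, ← Real.rpow_neg (by norm_num)]
  apply Real.rpow_le_rpow_of_exponent_le (by norm_num)
  have h6 : (2 * Q - 12) * (D * b * m') ≤ 2 * (D * b * (Q * m')) := by
    calc (2 * Q - 12) * (D * b * m') ≤ (2 * Q) * (D * b * m') :=
          Nat.mul_le_mul_right _ (Nat.sub_le _ _)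
      _ = 2 * (D * b * (Q * m')) := by ring
  have h7 : (1 - ε) * n ≤ ((2 * (D * b * (Q * m')) : ℕ) : ℝ) := by
    refine hexp.trans ?_
    exact_mod_cast h6
  push_cast at h7 ⊢
  linarith

/-- The arithmetic of the gap. -/
lemma gap_arith (Q D b m' n L : ℕ) (ε : ℝ) (hε1 : ε < 1)
    (hbig : 2 * (24 * (Q * m')) ^ 16 ≤ 2 ^ (D * b)) (hQm : 1 ≤ Q * m')
    (hL : 3 * (Q * m') < 4 * L)
    (hexp : (1 - ε) * n ≤ (((2 * Q - 12) * (D * b * m') : ℕ) : ℝ)) :
    ((2 ^ (2 * D * b) : ℕ) : ℝ) ^ (Q * m') * (2 : ℝ) ^ (Q * m') *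
      ((1 / ((2 : ℝ) ^ (D * b)) ^ 3) / 2) ^ L ≤ 2 ^ (-((1 - ε) * n / 10)) := by
  obtain ⟨T, hT⟩ : ∃ T : ℝ, T = (2 : ℝ) ^ (D * b) := ⟨_, rfl⟩
  obtain ⟨m, hm⟩ : ∃ m : ℕ, m = Q * m' := ⟨_, rfl⟩
  have hT0 : 0 < T := by rw [hT]; positivity
  have hT1 : 1 ≤ T := by rw [hT]; exact one_le_pow₀ (by norm_num)
  have hT16 : (16 : ℝ) ^ 16 ≤ T := by
    have h1 : 16 ^ 16 ≤ 2 ^ (D * b) := by
      refine le_trans ?_ hbig
      calc 16 ^ 16 ≤ 1 * (24 * (Q * m')) ^ 16 := by
            rw [one_mul]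
            apply Nat.pow_le_pow_left
            omega
        _ ≤ 2 * (24 * (Q * m')) ^ 16 := Nat.mul_le_mul_right _ (by norm_num)
    rw [hT]
    exact_mod_cast h1
  rw [← hm] at hL ⊢
  have hN : ((2 ^ (2 * D * b) : ℕ) : ℝ) = T ^ 2 := by
    rw [hT]; push_cast; rw [← pow_mul]; congr 1; ring
  rw [← hT, hN]
  obtain ⟨E, hE⟩ : ∃ E : ℝ, E = (T ^ 2) ^ m * (2 : ℝ) ^ m * ((1 / T ^ 3) / 2) ^ L := ⟨_, rfl⟩
  rw [← hE]
  have hE0 : 0 ≤ E := by rw [hE]; positivity
  have hE1 : E ≤ T ^ (2 * m) * 2 ^ m * (1 / T ^ (3 * L)) := by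
    rw [hE, ← pow_mul]
    apply mul_le_mul_of_nonneg_left _ (by positivity)
    have h0 : 1 / T ^ (3 * L) = (1 / T ^ 3) ^ L := by rw [one_div_pow, pow_mul]
    rw [h0]
    apply pow_le_pow_left₀ (by positivity)
    have : 0 < 1 / T ^ 3 := by positivity
    linarith
  have hE4 : E ^ 4 ≤ 16 ^ m / T ^ m := by
    calc E ^ 4 ≤ (T ^ (2 * m) * 2 ^ m * (1 / T ^ (3 * L))) ^ 4 := pow_le_pow_left₀ hE0 hE1 4
      _ = T ^ (8 * m) * 16 ^ m * (1 / T ^ (12 * L)) := by
          have a1 : (T ^ (2 * m)) ^ 4 = T ^ (8 * m) := by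
            rw [← pow_mul, show 2 * m * 4 = 8 * m by ring]
          have a2 : ((2 : ℝ) ^ m) ^ 4 = 16 ^ m := by
            rw [show (16 : ℝ) = 2 ^ 4 by norm_num, ← pow_mul, ← pow_mul, mul_comm m 4]
          have a3 : (1 / T ^ (3 * L)) ^ 4 = 1 / T ^ (12 * L) := by
            rw [one_div_pow, ← pow_mul, show 3 * L * 4 = 12 * L by ring]
          rw [mul_pow, mul_pow, a1, a2, a3]
      _ ≤ T ^ (8 * m) * 16 ^ m * (1 / T ^ (9 * m)) := by
          apply mul_le_mul_of_nonneg_left _ (by positivity)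
          apply one_div_le_one_div_of_le (by positivity)
          exact pow_le_pow_right₀ hT1 (by omega)
      _ = 16 ^ m / T ^ m := by
          rw [show 9 * m = 8 * m + m by ring, pow_add]
          field_simp
  have hE64 : E ^ 64 ≤ 1 / T ^ (15 * m) := by
    calc E ^ 64 = (E ^ 4) ^ 16 := by rw [← pow_mul]
      _ ≤ (16 ^ m / T ^ m) ^ 16 := pow_le_pow_left₀ (by positivity) hE4 16
      _ = (16 ^ 16) ^ m / T ^ (16 * m) := by
          have a1 : ((16 : ℝ) ^ m) ^ 16 = (16 ^ 16) ^ m := by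
            rw [← pow_mul, ← pow_mul, mul_comm m 16]
          have a2 : (T ^ m) ^ 16 = T ^ (16 * m) := by rw [← pow_mul, mul_comm m 16]
          rw [div_pow, a1, a2]
      _ ≤ T ^ m / T ^ (16 * m) := by
          apply div_le_div_of_nonneg_right _ (by positivity)
          exact pow_le_pow_left₀ (by positivity) hT16 m
      _ = 1 / T ^ (15 * m) := by
          rw [show 16 * m = 15 * m + m by ring, pow_add]
          field_simp
  have h6 : (2 * Q - 12) * (D * b * m') ≤ 2 * (D * b * (Q * m')) := by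
    calc (2 * Q - 12) * (D * b * m') ≤ (2 * Q) * (D * b * m') :=
          Nat.mul_le_mul_right _ (Nat.sub_le _ _)
      _ = 2 * (D * b * (Q * m')) := by ring
  have h7 : (1 - ε) * n ≤ ((2 * (D * b * m) : ℕ) : ℝ) := by
    rw [hm]
    refine hexp.trans ?_
    exact_mod_cast h6
  have h8 : (1 : ℝ) / T ^ (15 * m) ≤ ((2 : ℝ) ^ (-((1 - ε) * n / 10))) ^ 64 := by
    rw [hT, ← pow_mul, one_div, ← Real.rpow_natCast, ← Real.rpow_neg (by norm_num),
      ← Real.rpow_natCast, ← Real.rpow_mul (by norm_num)]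
    apply Real.rpow_le_rpow_of_exponent_le (by norm_num)
    push_cast at h7 ⊢
    have h9 : 0 ≤ (1 - ε) * n := mul_nonneg (by linarith) (Nat.cast_nonneg _)
    nlinarith
  exact (pow_le_pow_iff_left₀ hE0 (by positivity) (by norm_num)).1 (hE64.trans h8)

end H592R3.MbU
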