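import Mathlib
import Pool.Agent.H592R6.Gap

/-!
Proof systems for the unsatisfiability of random constraint satisfaction problems with a gap.
-/

set_option linter.unusedSectionVars false

namespace H592R3.MbU

open Finset DomAC0 H568R2 SmallDepth H592R3.Mb2 H592R3.Mb3

section Map
variable {m B ℓ n w : ℕ}

/-- The scopes. -/
noncomputable def gsc (s : Fin m → Fin B → Fin m) (e : (Fin m × Fin ℓ) ↪ Fin n) (v0 : Fin n)
    (pos : (Fin B × Fin ℓ) ↪ Fin w) (c : Fin m) (j : Fin w) : Fin n :=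
  open Classical in
  if h : ∃ p, pos p = j then e (s c h.choose.1, h.choose.2) else v0

lemma gsc_pos (s : Fin m → Fin B → Fin m) (e : (Fin m × Fin ℓ) ↪ Fin n) (v0 : Fin n)
    (pos : (Fin B × Fin ℓ) ↪ Fin w) (c : Fin m) (p : Fin B × Fin ℓ) :
    gsc s e v0 pos c (pos p) = e (s c p.1, p.2) := by
  classical
  unfold gsc
  have h : ∃ p', pos p' = pos p := ⟨p, rfl⟩
  rw [dif_pos h]
  have h2 : h.choose = p := pos.injective h.choose_spec
  rw [h2]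

/-- The truth tables. -/
def gtab (dec : (Fin ℓ → Bool) ≃ Fin (2 ^ ℓ)) (pos : (Fin B × Fin ℓ) ↪ Fin w)
    (X : (Fin m × (Fin B → Fin (2 ^ ℓ))) → Bool) : Fin m × (Fin w → Bool) → Bool :=
  fun cτ => X (cτ.1, fun j => dec (fun i => cτ.2 (pos (j, i))))

lemma gtab_junta (dec : (Fin ℓ → Bool) ≃ Fin (2 ^ ℓ)) (pos : (Fin B × Fin ℓ) ↪ Fin w)
    (z : Fin m × (Fin w → Bool)) :
    Junta 1 (fun X : (Fin m × (Fin B → Fin (2 ^ ℓ))) → Bool => gtab dec pos X z) := by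
  refine ⟨{(z.1, fun j => dec (fun i => z.2 (pos (j, i))))}, by simp, fun X Y h => ?_⟩
  exact h _ (Finset.mem_singleton_self _)

lemma gtab_eval (s : Fin m → Fin B → Fin m) (e : (Fin m × Fin ℓ) ↪ Fin n) (v0 : Fin n)
    (dec : (Fin ℓ → Bool) ≃ Fin (2 ^ ℓ)) (pos : (Fin B × Fin ℓ) ↪ Fin w)
    (X : (Fin m × (Fin B → Fin (2 ^ ℓ))) → Bool) (α : Fin n → Bool) (c : Fin m) :
    gtab dec pos X (c, fun j => α (gsc s e v0 pos c j)) =
      X (vr s (fun v => dec (fun i => α (e (v, i)))) c) := by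
  unfold gtab vr
  simp only [gsc_pos]

lemma gap_of (s : Fin m → Fin B → Fin m) (e : (Fin m × Fin ℓ) ↪ Fin n) (v0 : Fin n)
    (dec : (Fin ℓ → Bool) ≃ Fin (2 ^ ℓ)) (pos : (Fin B × Fin ℓ) ↪ Fin w)
    (X : (Fin m × (Fin B → Fin (2 ^ ℓ))) → Bool) (L : ℕ) (hL : 4 * L ≤ 3 * m + 4)
    (h : ¬ ∃ a : Fin m → Fin (2 ^ ℓ),
      L ≤ (univ.filter (fun c => X (vr s a c) = true)).card) :
    ThreeQuarters (gsc s e v0 pos) (gtab dec pos X) := by
  intro α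
  push Not at h
  have h1 := h (fun v => dec (fun i => α (e (v, i))))
  have h2 : satisfied (gsc s e v0 pos) (gtab dec pos X) α =
      univ.filter (fun c => X (vr s (fun v => dec (fun i => α (e (v, i)))) c) = true) := by
    unfold satisfied
    apply Finset.filter_congr
    intro c _
    rw [gtab_eval]
  rw [h2]
  omega

lemma plant_satisfiable (s : Fin m → Fin B → Fin m) (e : (Fin m × Fin ℓ) ↪ Fin n) (v0 : Fin n)
    (dec : (Fin ℓ → Bool) ≃ Fin (2 ^ ℓ)) (pos : (Fin B × Fin ℓ) ↪ Fin w)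
    (X : (Fin m × (Fin B → Fin (2 ^ ℓ))) → Bool) (a : Fin m → Fin (2 ^ ℓ)) :
    Satisfiable (gsc s e v0 pos) (gtab dec pos (plant (vr s a) univ X)) := by
  classical
  obtain ⟨α, hα⟩ : ∃ α : Fin n → Bool, ∀ v i, α (e (v, i)) = dec.symm (a v) i := by
    refine ⟨fun u => if h : ∃ p, e p = u then dec.symm (a h.choose.1) h.choose.2 else false,
      fun v i => ?_⟩
    have h : ∃ p, e p = e (v, i) := ⟨(v, i), rfl⟩
    show (if h : ∃ p, e p = e (v, i) then dec.symm (a h.choose.1) h.choose.2 else false) = _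
    rw [dif_pos h]
    have h2 : h.choose = (v, i) := e.injective h.choose_spec
    rw [h2]
  refine ⟨α, ?_⟩
  unfold satisfied
  rw [Finset.filter_true_of_mem]
  intro c _
  rw [gtab_eval]
  have h3 : (fun v => dec (fun i => α (e (v, i)))) = a := by
    funext v
    have : (fun i => α (e (v, i))) = dec.symm (a v) := by
      funext i; exact hα v i
    rw [this, Equiv.apply_symm_apply]
  rw [h3]
  unfold plant
  simp

end Map

open Classical in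
/-- Sound proof systems refute few random constraint satisfaction problems with a gap. -/
theorem gap_main (ε : ℝ) (hε : 0 < ε) (hε1 : ε < 1) : ∃ C : ℝ, 0 < C ∧
    ∀ n d kk a bb t w : ℕ, 2 ≤ n → 1 ≤ d →
    C * (d * Real.log (n + kk * (a + bb) + t)) ≤ w → w ≤ n →
    ∃ M : ℕ, 1 ≤ M ∧ M ≤ n ∧ ∃ (sc : Fin M → Fin w → Fin n) (Λ : Type) (_ : Fintype Λ)
      (μ : Λ → ℝ) (x : Λ → Fin M × (Fin w → Bool) → Bool),
    (∀ l, 0 ≤ μ l) ∧ ∑ l, μ l = 1 ∧
    (∑ l, if ThreeQuarters sc (x l) then 0 else μ l) ≤ (2 : ℝ) ^ (-((1 - ε) * n / 10)) ∧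
    ∀ (V : PrivateProof (Fin M × (Fin w → Bool)) kk a bb)
      (cls : Set (PrivateProof.Strategy kk a bb)) (θ : ℝ) (S : ℕ),
      V.Bounded d S → (S : ℝ) ≤ 2 ^ ((1 - ε) * n) →
      (∀ y, Satisfiable sc y → ∀ P ∈ cls, V.acc y P ≤ θ) →
      (∑ l, if ∃ P ∈ cls, θ + 1 / 3 ≤ V.acc (x l) P then μ l else 0) ≤ (1 / 2) ^ t := by
  obtain ⟨Q, hQ6, C, hC, hpar⟩ := rare_param ε hε
  refine ⟨C, hC, ?_⟩
  intro n d kk a bb t w hn hd hw hwn
  obtain ⟨D, b, m', s, hD, hb, hm', hBw, hQn, hbig, hexp, hmain⟩ :=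
    hpar n d kk a bb t w hn hd hw hwn
  have hQm : 1 ≤ Q * m' := Nat.one_le_iff_ne_zero.2 (by positivity)
  have hn0 : 0 < n := by omega
  obtain ⟨e⟩ : Nonempty ((Fin (Q * m') × Fin (2 * D * b)) ↪ Fin n) := by
    apply Function.Embedding.nonempty_of_card_le
    rw [Fintype.card_prod, Fintype.card_fin, Fintype.card_fin, Fintype.card_fin]
    exact le_trans (Nat.mul_le_mul_left _ (Nat.le_succ _)) hQn
  obtain ⟨dec⟩ : Nonempty ((Fin (2 * D * b) → Bool) ≃ Fin (2 ^ (2 * D * b))) :=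
    ⟨Fintype.equivFinOfCardEq (by simp)⟩
  obtain ⟨pos⟩ : Nonempty ((Fin (2 * Q ^ 2 + 14 + 1) × Fin (2 * D * b)) ↪ Fin w) := by
    apply Function.Embedding.nonempty_of_card_le
    rw [Fintype.card_prod, Fintype.card_fin, Fintype.card_fin, Fintype.card_fin]
    omega
  obtain ⟨p, hp⟩ : ∃ p : ℝ, p = (1 / ((2 : ℝ) ^ (D * b)) ^ 3) / 2 := ⟨_, rfl⟩
  have hp0 : 0 ≤ p := by rw [hp]; positivity
  have hp1 : p ≤ 1 := by
    have h1 : (1 : ℝ) ≤ ((2 : ℝ) ^ (D * b)) ^ 3 := one_le_pow₀ (one_le_pow₀ (by norm_num))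
    have h2 : 1 / ((2 : ℝ) ^ (D * b)) ^ 3 ≤ 1 := by
      rw [div_le_one (by positivity)]; exact h1
    rw [hp]
    linarith
  rw [← hp] at hmain
  have hμ : ∀ X : (Fin (Q * m') × (Fin (2 * Q ^ 2 + 14 + 1) → Fin (2 ^ (2 * D * b)))) → Bool,
      0 ≤ ∏ i, vp p (X i) := fun X => Finset.prod_nonneg fun i _ => vp_nonneg hp0 hp1 _
  refine ⟨Q * m', hQm, ?_, gsc s e ⟨0, hn0⟩ pos,
    ((Fin (Q * m') × (Fin (2 * Q ^ 2 + 14 + 1) → Fin (2 ^ (2 * D * b)))) → Bool),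
    inferInstance, fun X => ∏ i, vp p (X i), fun X => gtab dec pos X, hμ, ?_, ?_, ?_⟩
  · refine le_trans ?_ hQn
    exact Nat.le_mul_of_pos_right _ (by omega)
  · have := Ex_const (I := Fin (Q * m') × (Fin (2 * Q ^ 2 + 14 + 1) → Fin (2 ^ (2 * D * b))))
      (vp_sum p) (1 : ℝ)
    unfold Ex at this
    simpa using this
  · obtain ⟨L, hL⟩ : ∃ L : ℕ, L = 3 * (Q * m') / 4 + 1 := ⟨_, rfl⟩
    have h1 := gap_prob (N := 2 ^ (2 * D * b)) s hp0 hp1 L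
    have h2 := gap_arith Q D b m' n L ε hε1 hbig hQm (by omega) hexp
    rw [← hp] at h2
    refine le_trans ?_ (h1.trans h2)
    unfold Ex
    refine Finset.sum_le_sum fun X _ => ?_
    beta_reduce
    by_cases hX : ∃ a : Fin (Q * m') → Fin (2 ^ (2 * D * b)),
        L ≤ (univ.filter (fun c => X (vr s a c) = true)).card
    · rw [if_pos hX, mul_one]
      split_ifs
      · exact hμ X
      · exact le_refl _
    · rw [if_pos (gap_of s e ⟨0, hn0⟩ dec pos X L (by omega) hX), if_neg hX, mul_zero]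
  · intro V cls θ S hV hS hno
    have h1 := hmain _ (fun X => gtab dec pos X) (gtab_junta dec pos) V cls θ S hV hS
      (fun X α P hP => hno _ (plant_satisfiable s e ⟨0, hn0⟩ dec pos X α) P hP)
    refine le_trans (le_of_eq ?_) h1
    unfold Ex
    refine Finset.sum_congr rfl fun X _ => ?_
    beta_reduce
    split_ifs
    · rw [mul_one]
    · rw [mul_zero]

open Classical in
/-- The version for probabilistically checkable proofs. -/
theorem gap_pcp (ε : ℝ) (hε : 0 < ε) (hε1 : ε < 1) : ∃ C : ℝ, 0 < C ∧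
    ∀ n d k q t w : ℕ, 2 ≤ n → 1 ≤ d →
    C * (d * Real.log (n + k * (q + 1) + t)) ≤ w → w ≤ n →
    ∃ M : ℕ, 1 ≤ M ∧ M ≤ n ∧ ∃ (sc : Fin M → Fin w → Fin n) (Λ : Type) (_ : Fintype Λ)
      (μ : Λ → ℝ) (x : Λ → Fin M × (Fin w → Bool) → Bool),
    (∀ l, 0 ≤ μ l) ∧ ∑ l, μ l = 1 ∧
    (∑ l, if ThreeQuarters sc (x l) then 0 else μ l) ≤ (2 : ℝ) ^ (-((1 - ε) * n / 10)) ∧
    ∀ (V : PcpVerifier (Fin M × (Fin w → Bool)) k q) (θ : ℝ) (S : ℕ),
      V.Bounded d S → (S : ℝ) ≤ 2 ^ ((1 - ε) * n) →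
      (∀ y, Satisfiable sc y → ∀ π, V.acc y π ≤ θ) →
      (∑ l, if ∃ π, θ + 1 / 3 ≤ V.acc (x l) π then μ l else 0) ≤ (1 / 2) ^ t := by
  obtain ⟨C, hC, h⟩ := gap_main ε hε hε1
  refine ⟨C, hC, ?_⟩
  intro n d k q t w hn hd hw hwn
  obtain ⟨M, hM1, hM2, sc, Λ, hΛ, μ, x, hμ0, hμ1, hgap, hmain⟩ :=
    h n d k q 1 t w hn hd (by exact_mod_cast hw) hwn
  refine ⟨M, hM1, hM2, sc, Λ, hΛ, μ, x, hμ0, hμ1, hgap, ?_⟩
  intro V θ S hV hS hno
  have h1 := hmain (toPriv V) {P | ∃ π, P = ofProof π} θ S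
    (fun ω r => hV ω (fun t => r t 0)) hS (by
      rintro y hy P ⟨π, rfl⟩
      rw [toPriv_acc]
      exact hno y hy π)
  refine le_trans (le_of_eq ?_) h1
  refine Finset.sum_congr rfl fun l _ => ?_
  beta_reduce
  by_cases hx : ∃ π, θ + 1 / 3 ≤ V.acc (x l) π
  · rw [if_pos hx, if_pos]
    obtain ⟨π, hπ⟩ := hx
    exact ⟨ofProof π, ⟨π, rfl⟩, by rw [toPriv_acc]; exact hπ⟩
  · rw [if_neg hx, if_neg]
    rintro ⟨P, ⟨π, rfl⟩, hP⟩
    rw [toPriv_acc] at hP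
    exact hx ⟨π, hP⟩

end H592R3.MbU
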