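import Mathlib
import Pool.Agent.H592R6.PrivG
import Pool.Agent.H251R2.DFAI.Defs

/-!
The intersection of the languages of automata that read a formula: the reduction.
-/

set_option linter.unusedSectionVars false

namespace H592R3.Dfa

open Finset DomAC0 H568R2 SmallDepth Pool.Agent.H251R2.DFAI

section Run
variable {m b0 M : ℕ}

/-- The letters of the abstract machine: a variable and an action (`false`: give the value `true`
to the variable; `true`: claim that the variable satisfies the next clause). -/
abbrev Lt (m b0 : ℕ) : Type := (Fin m × Fin b0) × Bool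

/-- The states: the values of the variables of a block and the number of the next clause, or a
dead state. -/
abbrev St (b0 M : ℕ) : Type := Option ((Fin b0 → Bool) × Fin (M + 1))

/-- One step of the automaton number `i`. -/
def stepS (φ : Fin M × Fin (m * b0) × Bool → Bool) (i : Fin m) :
    St b0 M → Lt m b0 → St b0 M
  | none, _ => none
  | some (a, j), ((i', t), false) =>
      if i' = i then (if j.val = 0 then some (Function.update a t true, j) else none)
      else some (a, j)
  | some (a, j), ((i', t), true) =>
      if h : j.val < M then
        (if i' = i then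
          (if φ (⟨j.val, h⟩, finProdFinEquiv (i', t), a t) = true then
            some (a, ⟨j.val + 1, by omega⟩) else none)
        else some (a, ⟨j.val + 1, by omega⟩))
      else none

/-- The initial state. -/
def init (b0 M : ℕ) : St b0 M := some (fun _ => false, 0)

/-- The accepting states. -/
def accS : St b0 M → Bool
  | none => false
  | some (_, j) => decide (j.val = M)

lemma stepS_none (φ : Fin M × Fin (m * b0) × Bool → Bool) (i : Fin m) (l : Lt m b0) :
    stepS φ i none l = none := by
  unfold stepS; rfl

/-- The invariant. -/
lemma run_inv (φ : Fin M × Fin (m * b0) × Bool → Bool) (w : List (Lt m b0)) :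
    ∀ s : Fin m → (Fin b0 → Bool) × Fin (M + 1),
      (∀ i, w.foldl (stepS φ i) (init b0 M) = some (s i)) →
      (∀ i i', (s i).2 = (s i').2) ∧
      (∀ i0, ∀ j : Fin M, j.val < (s i0).2.val →
        ∃ i' t, φ (j, finProdFinEquiv (i', t), (s i').1 t) = true) := by
  induction w using List.reverseRecOn with
  | nil =>
    intro s hs
    have h1 : ∀ i, s i = (fun _ => false, 0) := by
      intro i
      have := hs i
      simp only [List.foldl_nil, init, Option.some.injEq] at this
      exact this.symm
    constructor
    · intro i i'; rw [h1 i, h1 i']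
    · intro i0 j hj
      rw [h1 i0] at hj
      exact absurd hj (Nat.not_lt_zero _)
  | append_singleton w l ih =>
    intro s hs
    simp only [List.foldl_append, List.foldl_cons, List.foldl_nil] at hs
    -- the previous states
    have hex : ∀ i, ∃ s', w.foldl (stepS φ i) (init b0 M) = some s' := by
      intro i
      have h1 := hs i
      cases h2 : w.foldl (stepS φ i) (init b0 M) with
      | none => rw [h2, stepS_none] at h1; exact absurd h1 (by simp)
      | some s' => exact ⟨s', rfl⟩
    choose s' hs' using hex
    obtain ⟨ih1, ih2⟩ := ih s' hs'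
    simp only [hs'] at hs
    obtain ⟨⟨i', t⟩, c⟩ := l
    cases c with
    | false =>
      -- an assignment
      have hne : ∀ i, i' ≠ i → s i = s' i := by
        intro i hi
        have h1 := hs i
        rcases hsi : s' i with ⟨a, j⟩
        rw [hsi] at h1
        simp only [stepS, if_neg hi, Option.some.injEq] at h1
        rw [← h1]
      have h0 : (s' i').2.val = 0 ∧ (s i').2 = (s' i').2 := by
        have h1 := hs i'
        rcases hsi : s' i' with ⟨a, j⟩
        rw [hsi] at h1
        simp only [stepS, if_true] at h1
        by_cases hj : j.val = 0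
        · rw [if_pos hj, Option.some.injEq] at h1
          refine ⟨hj, ?_⟩
          rw [← h1]
        · rw [if_neg hj] at h1
          exact absurd h1 (by simp)
      have h2 : ∀ i, (s i).2 = (s' i').2 := by
        intro i
        by_cases hi : i' = i
        · subst hi; exact h0.2
        · rw [hne i hi]; exact ih1 _ _
      constructor
      · intro i i''; rw [h2 i, h2 i'']
      · intro i0 j hj
        rw [h2 i0, h0.1] at hj
        exact absurd hj (Nat.not_lt_zero _)
    | true =>
      have h3 : ∀ i, (s' i).2.val < M ∧ (s i).1 = (s' i).1 ∧
          (s i).2.val = (s' i).2.val + 1 := by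
        intro i
        have h1 := hs i
        rcases hsi : s' i with ⟨a, j⟩
        rw [hsi] at h1
        simp only [stepS] at h1
        by_cases hj : j.val < M
        · rw [dif_pos hj] at h1
          refine ⟨hj, ?_⟩
          split_ifs at h1 with h4 h5
          · rw [Option.some.injEq] at h1
            rw [← h1]; exact ⟨rfl, rfl⟩
          · rw [Option.some.injEq] at h1
            rw [← h1]; exact ⟨rfl, rfl⟩
        · rw [dif_neg hj] at h1
          exact absurd h1 (by simp)
      have h4 : ∃ jj : Fin M, jj.val = (s' i').2.val ∧
          φ (jj, finProdFinEquiv (i', t), (s' i').1 t) = true := by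
        have h1 := hs i'
        have hj := (h3 i').1
        revert h1 hj
        generalize s' i' = x
        obtain ⟨a, j⟩ := x
        intro h1 hj
        have hj' : j.val < M := hj
        simp only [stepS] at h1
        rw [dif_pos hj', if_true] at h1
        by_cases h5 : φ (⟨j.val, hj'⟩, finProdFinEquiv (i', t), a t) = true
        · exact ⟨⟨j.val, hj'⟩, rfl, h5⟩
        · rw [if_neg h5] at h1
          exact absurd h1 (by simp)
      constructor
      · intro i i''
        apply Fin.ext
        rw [(h3 i).2.2, (h3 i'').2.2, ih1 i i'']
      · intro i0 j hj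
        rw [(h3 i0).2.2] at hj
        rcases Nat.lt_succ_iff_lt_or_eq.1 hj with h5 | h5
        · obtain ⟨i1, t1, h6⟩ := ih2 i0 j h5
          refine ⟨i1, t1, ?_⟩
          rw [(h3 i1).2.1]
          exact h6
        · obtain ⟨jj, h6, h7⟩ := h4
          refine ⟨i', t, ?_⟩
          rw [(h3 i').2.1]
          have h8 : j = jj := by
            apply Fin.ext
            rw [h6, h5, ih1 i0 i']
          rw [h8]
          exact h7

/-- The automata have a common word only if there is a model. -/
lemma run_models (φ : Fin M × Fin (m * b0) × Bool → Bool) (hm : 0 < m) (w : List (Lt m b0))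
    (h : ∀ i, accS (w.foldl (stepS φ i) (init b0 M)) = true) : ∃ α, Models φ α := by
  have hex : ∀ i, ∃ s : (Fin b0 → Bool) × Fin (M + 1),
      w.foldl (stepS φ i) (init b0 M) = some s ∧ s.2.val = M := by
    intro i
    have h1 := h i
    cases h2 : w.foldl (stepS φ i) (init b0 M) with
    | none => rw [h2] at h1; exact absurd h1 (by simp [accS])
    | some s =>
      obtain ⟨a, j⟩ := s
      rw [h2] at h1
      exact ⟨(a, j), rfl, by simpa [accS] using h1⟩
  choose s hs hsM using hex
  obtain ⟨_, h2⟩ := run_inv φ w s hs
  refine ⟨fun v => (s (finProdFinEquiv.symm v).1).1 (finProdFinEquiv.symm v).2, ?_⟩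
  intro c
  obtain ⟨i', t, h3⟩ := h2 ⟨0, hm⟩ c (by rw [hsM]; exact c.2)
  refine ⟨finProdFinEquiv (i', t), ?_⟩
  show φ (c, finProdFinEquiv (i', t), (s (finProdFinEquiv.symm (finProdFinEquiv (i', t))).1).1
    (finProdFinEquiv.symm (finProdFinEquiv (i', t))).2) = true
  rw [Equiv.symm_apply_apply]
  exact h3

/-- The first part of the word: the assignment. -/
lemma run_set (φ : Fin M × Fin (m * b0) × Bool → Bool) (i : Fin m) (L : List (Fin m × Fin b0)) :
    ∀ a : Fin b0 → Bool, (L.map (fun v => ((v, false) : Lt m b0))).foldl (stepS φ i)
      (some (a, (0 : Fin (M + 1)))) =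
      some ((fun t => if (i, t) ∈ L then true else a t), 0) := by
  induction L with
  | nil =>
    intro a
    simp
  | cons v L ih =>
    intro a
    obtain ⟨i', t⟩ := v
    simp only [List.map_cons, List.foldl_cons]
    by_cases hi : i' = i
    · subst hi
      have : stepS φ i' (some (a, (0 : Fin (M + 1)))) ((i', t), false) =
          some (Function.update a t true, 0) := by
        simp [stepS]
      rw [this, ih]
      congr 2
      funext t'
      by_cases ht : t' = t
      · subst ht
        simp
      · have : ((i', t') : Fin m × Fin b0) ≠ (i', t) := by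
          intro h; exact ht (Prod.mk.inj h).2
        rw [Function.update_of_ne ht]
        simp [this]
    · have : stepS φ i (some (a, (0 : Fin (M + 1)))) ((i', t), false) =
          some (a, 0) := by
        simp [stepS, hi]
      rw [this, ih]
      congr 2
      funext t'
      have : ((i, t') : Fin m × Fin b0) ≠ (i', t) := by
        intro h; exact hi (Prod.mk.inj h).1.symm
      simp [this]

/-- The second part of the word: the claims. -/
lemma run_claims (φ : Fin M × Fin (m * b0) × Bool → Bool) (i : Fin m) (a : Fin m → Fin b0 → Bool)
    (ch : ℕ → Fin m × Fin b0)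
    (hch : ∀ (j : ℕ) (h : j < M),
      φ (⟨j, h⟩, finProdFinEquiv (ch j), a (ch j).1 (ch j).2) = true) :
    ∀ k : ℕ, ∀ hk : k < M + 1, ((List.range k).map (fun j => ((ch j, true) : Lt m b0))).foldl
      (stepS φ i) (some (a i, (0 : Fin (M + 1)))) = some (a i, ⟨k, hk⟩) := by
  intro k
  induction k with
  | zero => intro _; rfl
  | succ k ih =>
    intro hk
    rw [List.range_succ, List.map_append, List.foldl_append, ih (by omega)]
    simp only [List.map_cons, List.map_nil, List.foldl_cons, List.foldl_nil]
    have hkM : k < M := by omega
    have h1 := hch k hkM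
    rcases hc : ch k with ⟨i', t⟩
    rw [hc] at h1
    simp only [stepS, dif_pos hkM]
    by_cases hi : i' = i
    · subst hi
      rw [if_pos rfl, if_pos h1]
    · rw [if_neg hi]

/-- A model gives a common word. -/
lemma models_run (φ : Fin M × Fin (m * b0) × Bool → Bool) (α : Fin (m * b0) → Bool)
    (hα : Models φ α) (hmb : 0 < m * b0) :
    ∃ w : List (Lt m b0), ∀ i, accS (w.foldl (stepS φ i) (init b0 M)) = true := by
  classical
  have hch : ∃ ch : ℕ → Fin m × Fin b0, ∀ (j : ℕ) (h : j < M),
      φ (⟨j, h⟩, finProdFinEquiv (ch j), α (finProdFinEquiv (ch j))) = true := by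
    have : ∀ j : ℕ, ∃ v : Fin m × Fin b0, ∀ h : j < M,
        φ (⟨j, h⟩, finProdFinEquiv v, α (finProdFinEquiv v)) = true := by
      intro j
      by_cases h : j < M
      · obtain ⟨v, hv⟩ := hα ⟨j, h⟩
        refine ⟨finProdFinEquiv.symm v, fun _ => ?_⟩
        rw [Equiv.apply_symm_apply]
        exact hv
      · exact ⟨finProdFinEquiv.symm ⟨0, hmb⟩, fun h' => absurd h' h⟩
    choose ch hch using this
    exact ⟨ch, hch⟩
  obtain ⟨ch, hch⟩ := hch
  obtain ⟨a, ha⟩ : ∃ a : Fin m → Fin b0 → Bool, a = fun i t => α (finProdFinEquiv (i, t)) :=
    ⟨_, rfl⟩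
  refine ⟨((univ.filter (fun v : Fin m × Fin b0 => α (finProdFinEquiv v) = true)).toList.map
    (fun v => ((v, false) : Lt m b0))) ++
    ((List.range M).map (fun j => ((ch j, true) : Lt m b0))), fun i => ?_⟩
  rw [List.foldl_append]
  unfold init
  rw [run_set]
  have h1 : (fun t => if (i, t) ∈ (univ.filter
      (fun v : Fin m × Fin b0 => α (finProdFinEquiv v) = true)).toList then true else false) =
      a i := by
    funext t
    rw [ha]
    by_cases h : α (finProdFinEquiv (i, t)) = true
    · simp [h]
    · simp [h]
  rw [h1, run_claims φ i a ch (by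
    intro j h
    rw [ha]
    exact hch j h) M (by omega)]
  simp [accS]

end Run

end H592R3.Dfa
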