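import Mathlib
import Pool.Agent.H592R6.Dfa

/-!
The intersection of the languages of automata over an alphabet with at least two letters.
-/

set_option linter.unusedSectionVars false

namespace H592R3.Dfa

open Finset DomAC0 H568R2 SmallDepth Pool.Agent.H251R2.DFAI

section Ptr
variable {S L : Type} {N : ℕ}

/-- The action of a letter: `0` advances the pointer, `1` executes the abstract letter at the
pointer, the other letters do nothing. -/
def step2 (hN : 0 < N) (e : L ≃ Fin N) (f : S → L → S) (s : S × Fin N) (x : ℕ) : S × Fin N :=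
  if x = 0 then (s.1, ⟨(s.2.val + 1) % N, Nat.mod_lt _ hN⟩)
  else if x = 1 then (f s.1 (e.symm s.2), s.2) else s

/-- The abstract letters that are executed and the last value of the pointer. -/
def exec (hN : 0 < N) (e : L ≃ Fin N) : Fin N → List ℕ → List L
  | _, [] => []
  | p, x :: w => if x = 0 then exec hN e ⟨(p.val + 1) % N, Nat.mod_lt _ hN⟩ w
      else if x = 1 then e.symm p :: exec hN e p w else exec hN e p w

lemma fold_exec (hN : 0 < N) (e : L ≃ Fin N) (f : S → L → S) (w : List ℕ) :
    ∀ (s : S) (p : Fin N), (w.foldl (step2 hN e f) (s, p)).1 =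
      (exec hN e p w).foldl f s := by
  induction w with
  | nil => intro s p; rfl
  | cons x w ih =>
    intro s p
    simp only [List.foldl_cons, exec, step2]
    by_cases h0 : x = 0
    · rw [if_pos h0, if_pos h0]
      exact ih _ _
    · rw [if_neg h0, if_neg h0]
      by_cases h1 : x = 1
      · rw [if_pos h1, if_pos h1, List.foldl_cons]
        exact ih _ _
      · rw [if_neg h1, if_neg h1]
        exact ih _ _

lemma exec_adv (hN : 0 < N) (e : L ≃ Fin N) (k : ℕ) : ∀ (p : Fin N) (w : List ℕ),
    exec hN e p (List.replicate k 0 ++ w) =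
      exec hN e ⟨(p.val + k) % N, Nat.mod_lt _ hN⟩ w := by
  induction k with
  | zero =>
    intro p w
    have : (⟨(p.val + 0) % N, Nat.mod_lt _ hN⟩ : Fin N) = p := by
      apply Fin.ext
      show (p.val + 0) % N = p.val
      rw [Nat.add_zero, Nat.mod_eq_of_lt p.2]
    rw [this]
    rfl
  | succ k ih =>
    intro p w
    rw [List.replicate_succ, List.cons_append]
    show (if (0 : ℕ) = 0 then _ else _) = _
    rw [if_pos rfl, ih]
    congr 1
    apply Fin.ext
    show ((p.val + 1) % N + k) % N = (p.val + (k + 1)) % N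
    rw [Nat.mod_add_mod]
    congr 1
    ring

/-- Every sequence of abstract letters can be executed with the letters `0` and `1`. -/
lemma exec_surj (hN : 0 < N) (e : L ≃ Fin N) (ls : List L) : ∀ p : Fin N,
    ∃ w : List ℕ, (∀ x ∈ w, x < 2) ∧ exec hN e p w = ls := by
  induction ls with
  | nil => intro p; exact ⟨[], by simp, rfl⟩
  | cons l ls ih =>
    intro p
    obtain ⟨w, hw, hw2⟩ := ih (e l)
    refine ⟨List.replicate (N - p.val + (e l).val) 0 ++ (1 :: w), ?_, ?_⟩
    · intro x hx
      rw [List.mem_append, List.mem_cons] at hx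
      rcases hx with hx | hx | hx
      · rw [List.eq_of_mem_replicate hx]; norm_num
      · rw [hx]; norm_num
      · exact hw x hx
    · rw [exec_adv]
      have h1 : (⟨(p.val + (N - p.val + (e l).val)) % N, Nat.mod_lt _ hN⟩ : Fin N) = e l := by
        apply Fin.ext
        show (p.val + (N - p.val + (e l).val)) % N = (e l).val
        have h2 : p.val + (N - p.val + (e l).val) = (e l).val + N := by
          have := p.2; omega
        rw [h2, Nat.add_mod_right, Nat.mod_eq_of_lt (e l).2]
      rw [h1]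
      show (if (1 : ℕ) = 0 then _ else if (1 : ℕ) = 1 then _ else _) = _
      rw [if_neg (by norm_num), if_pos rfl, Equiv.symm_apply_apply, hw2]

end Ptr

section Inst
variable {m b0 M b K N : ℕ}

/-- A partial inverse. -/
noncomputable def unc {A B : Type} (c : A ↪ B) (a0 : A) (q : B) : A :=
  open Classical in if h : ∃ a, c a = q then h.choose else a0

lemma unc_apply {A B : Type} (c : A ↪ B) (a0 a : A) : unc c a0 (c a) = a := by
  classical
  unfold unc
  have h : ∃ a', c a' = c a := ⟨a, rfl⟩
  rw [dif_pos h]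
  exact c.injective h.choose_spec

/-- The automata. -/
noncomputable def inst (hN : 0 < N) (e : Lt m b0 ≃ Fin N)
    (c : (St b0 M × Fin N) ↪ (Fin b → Bool)) (φ : Fin M × Fin (m * b0) × Bool → Bool) :
    Bits m b K → Bool
  | .inl (_, t) => c (init b0 M, ⟨0, hN⟩) t
  | .inr (.inl (i, q, x, t)) =>
      c (step2 hN e (stepS φ i) (unc c (none, ⟨0, hN⟩) q) x.val) t
  | .inr (.inr (_, q)) => accS (unc c (none, ⟨0, hN⟩) q).1

lemma inst_run (hN : 0 < N) (e : Lt m b0 ≃ Fin N)
    (c : (St b0 M × Fin N) ↪ (Fin b → Bool)) (φ : Fin M × Fin (m * b0) × Bool → Bool)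
    (i : Fin m) (w : List (Fin K)) : ∀ s : St b0 M × Fin N,
    w.foldl (aut (inst hN e c φ : Bits m b K → Bool) i).step (c s) =
      c ((w.map Fin.val).foldl (step2 hN e (stepS φ i)) s) := by
  induction w with
  | nil => intro s; rfl
  | cons x w ih =>
    intro s
    simp only [List.foldl_cons, List.map_cons]
    rw [← ih]
    congr 1
    show (fun t => c (step2 hN e (stepS φ i) (unc c (none, ⟨0, hN⟩) (c s)) x.val) t) = _
    rw [unc_apply]

lemma inst_accepts (hN : 0 < N) (e : Lt m b0 ≃ Fin N)
    (c : (St b0 M × Fin N) ↪ (Fin b → Bool)) (φ : Fin M × Fin (m * b0) × Bool → Bool)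
    (i : Fin m) (w : List (Fin K)) :
    w ∈ (aut (inst hN e c φ : Bits m b K → Bool) i).accepts ↔
      accS ((exec hN e ⟨0, hN⟩ (w.map Fin.val)).foldl (stepS φ i) (init b0 M)) = true := by
  rw [DFA.mem_accepts]
  show (aut (inst hN e c φ : Bits m b K → Bool) i).evalFrom
    (aut (inst hN e c φ : Bits m b K → Bool) i).start w ∈ _ ↔ _
  have h1 : (aut (inst hN e c φ : Bits m b K → Bool) i).start = c (init b0 M, ⟨0, hN⟩) := rfl
  rw [h1]
  unfold DFA.evalFrom
  rw [inst_run]
  show accS (unc c (none, ⟨0, hN⟩) (c _)).1 = true ↔ _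
  rw [unc_apply, fold_exec]

/-- The reduction. -/
theorem meet_inst (hm : 0 < m) (hb0 : 0 < b0) (hK : 2 ≤ K) (hN : 0 < N) (e : Lt m b0 ≃ Fin N)
    (c : (St b0 M × Fin N) ↪ (Fin b → Bool)) (φ : Fin M × Fin (m * b0) × Bool → Bool) :
    Meet (inst hN e c φ : Bits m b K → Bool) ↔ ∃ α, Models φ α := by
  constructor
  · rintro ⟨w, hw⟩
    exact run_models φ hm _ (fun i => (inst_accepts hN e c φ i w).1 (hw i))
  · rintro ⟨α, hα⟩
    obtain ⟨ls, hls⟩ := models_run φ α hα (Nat.mul_pos hm hb0)
    obtain ⟨w, hw, hw2⟩ := exec_surj hN e ls ⟨0, hN⟩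
    have hex : ∃ w' : List (Fin K), w'.map Fin.val = w := by
      refine ⟨w.attach.map (fun x => (⟨x.1, by have := hw x.1 x.2; omega⟩ : Fin K)), ?_⟩
      rw [List.map_map]
      have : (Fin.val ∘ fun x : {x // x ∈ w} => (⟨x.1, by have := hw x.1 x.2; omega⟩ : Fin K)) =
          fun x => x.1 := rfl
      rw [this]
      exact List.attach_map_subtype_val w
    obtain ⟨w', hw'⟩ := hex
    refine ⟨w', fun i => ?_⟩
    rw [inst_accepts, hw', hw2]
    exact hls i

/-- Each bit depends on at most one bit of the formula. -/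
lemma inst_junta (hN : 0 < N) (e : Lt m b0 ≃ Fin N)
    (c : (St b0 M × Fin N) ↪ (Fin b → Bool)) (z : Bits m b K) :
    Junta 1 (fun φ : Fin M × Fin (m * b0) × Bool → Bool => inst hN e c φ z) := by
  rcases z with ⟨i, t⟩ | ⟨i, q, x, t⟩ | ⟨i, q⟩
  · exact ⟨∅, by simp, fun X Y _ => rfl⟩
  · obtain ⟨s, hs⟩ : ∃ s, s = unc c (none, ⟨0, hN⟩) q := ⟨_, rfl⟩
    have h1 : (fun φ : Fin M × Fin (m * b0) × Bool → Bool =>
        (inst hN e c φ : Bits m b K → Bool) (.inr (.inl (i, q, x, t)))) =
        fun φ => c (step2 hN e (stepS φ i) s x.val) t := by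
      funext φ
      rw [hs]
      rfl
    rw [h1]
    obtain ⟨s1, p⟩ := s
    have h2 : ∀ φ : Fin M × Fin (m * b0) × Bool → Bool,
        c (step2 hN e (stepS φ i) (s1, p) x.val) t =
        if x.val = 0 then c (s1, ⟨(p.val + 1) % N, Nat.mod_lt _ hN⟩) t
        else if x.val = 1 then c (stepS φ i s1 (e.symm p), p) t else c (s1, p) t := by
      intro φ
      unfold step2
      split_ifs <;> rfl
    simp only [h2]
    by_cases hx0 : x.val = 0
    · simp only [hx0, if_true]
      exact ⟨∅, by simp, fun X Y _ => rfl⟩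
    by_cases hx1 : x.val = 1
    · simp only [hx1, if_true]
      obtain ⟨⟨i', t'⟩, cc⟩ := e.symm p
      cases s1 with
      | none => exact ⟨∅, by simp, fun X Y _ => rfl⟩
      | some s2 =>
        obtain ⟨a, j⟩ := s2
        cases cc with
        | false => exact ⟨∅, by simp, fun X Y _ => rfl⟩
        | true =>
          by_cases hj : j.val < M
          · refine ⟨{(⟨j.val, hj⟩, finProdFinEquiv (i', t'), a t')}, by simp, fun X Y h => ?_⟩
            have h3 := h _ (Finset.mem_singleton_self _)
            simp only [stepS, dif_pos hj]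
            rw [h3]
          · refine ⟨∅, by simp, fun X Y _ => ?_⟩
            simp only [stepS, dif_neg hj]
    · simp only [hx0, hx1, if_false]
      exact ⟨∅, by simp, fun X Y _ => rfl⟩
  · exact ⟨∅, by simp, fun X Y _ => rfl⟩

end Inst

end H592R3.Dfa
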