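import Mathlib
import Pool.Agent.H592R6.Dfa2

/-!
Probabilistically checkable proofs of the emptiness of the intersection of the languages of
automata.
-/

set_option linter.unusedSectionVars false

namespace H592R3.Dfa

open Finset DomAC0 H568R2 SmallDepth Pool.Agent.H251R2.DFAI

/-- The lower bound for probabilistically checkable proofs that the intersection of the languages
of automata is empty. -/
theorem dfa_pcp (ε : ℝ) (hε : 0 < ε) : ∃ C : ℝ, 0 < C ∧ ∀ m b K d k q S : ℕ, 1 ≤ m → 2 ≤ b →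
    1 ≤ d → 2 ≤ K → C * (d * Real.log (m * b + k * (q + 1))) ≤ b →
    ∀ (V : PcpVerifier (Bits m b K) k q) (θ : ℝ), V.Bounded d S →
    (∀ x, ¬ Meet x → ∃ π, θ + 1 / 3 ≤ V.acc x π) → (∀ x, Meet x → ∀ π, V.acc x π ≤ θ) →
    (2 : ℝ) ^ ((1 - ε) * (m * b)) < S := by
  obtain ⟨ε', hε'⟩ : ∃ ε' : ℝ, ε' = min (ε / 2) (1 / 2) := ⟨_, rfl⟩
  have hε'0 : 0 < ε' := by rw [hε']; exact lt_min (by linarith) (by norm_num)
  have hε'1 : ε' ≤ ε / 2 := by rw [hε']; exact min_le_left _ _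
  have hε'2 : ε' ≤ 1 / 2 := by rw [hε']; exact min_le_right _ _
  obtain ⟨C', hC', hlow⟩ := pcp_lowerG ε' hε'0
  refine ⟨(C' + 20) / ε', by positivity, ?_⟩
  intro m b K d k q S hm hb hd hK hC V θ hV hyes hno
  have hmR : (1 : ℝ) ≤ m := by exact_mod_cast hm
  have hbR : (2 : ℝ) ≤ b := by exact_mod_cast hb
  have hdR : (1 : ℝ) ≤ d := by exact_mod_cast hd
  obtain ⟨G, hG⟩ : ∃ G : ℝ, G = m * b + k * (q + 1) := ⟨_, rfl⟩
  rw [← hG] at hC
  have hkq : (0 : ℝ) ≤ (k : ℝ) * (q + 1) := by positivity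
  have hmb2 : (2 : ℝ) ≤ m * b := by nlinarith
  have hG2 : 2 ≤ G := by rw [hG]; linarith
  have hmbG : (m : ℝ) * b ≤ G := by rw [hG]; linarith
  have hlog2 := Real.log_two_gt_d9
  have hlog2' := Real.log_two_lt_d9
  obtain ⟨lg, hlg⟩ : ∃ lg : ℝ, lg = Real.log G := ⟨_, rfl⟩
  rw [← hlg] at hC
  have hlg1 : Real.log 2 ≤ lg := by rw [hlg]; exact Real.log_le_log (by norm_num) hG2
  have hlgmb : Real.log (m * b) ≤ lg := by
    rw [hlg]; exact Real.log_le_log (by linarith) hmbG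
  have hεb : (C' + 20) * (d * lg) ≤ ε' * b := by
    have := mul_le_mul_of_nonneg_left hC hε'0.le
    calc (C' + 20) * (d * lg) = ε' * ((C' + 20) / ε' * (d * lg)) := by field_simp
      _ ≤ ε' * b := this
  have hdlg : lg ≤ d * lg := by nlinarith
  -- the number of bits of the counters
  obtain ⟨b1, hb1⟩ : ∃ b1 : ℕ, b1 = ⌊ε' * b⌋₊ := ⟨_, rfl⟩
  have hb1a : (b1 : ℝ) ≤ ε' * b := by rw [hb1]; exact Nat.floor_le (by positivity)
  have hb1b : ε' * b < b1 + 1 := by rw [hb1]; exact Nat.lt_floor_add_one _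
  have hb1c : b1 ≤ b := by
    have h1 : (b1 : ℝ) ≤ b := by nlinarith
    exact_mod_cast h1
  obtain ⟨b0, hb0⟩ : ∃ b0 : ℕ, b0 + b1 = b := ⟨b - b1, by omega⟩
  have hb0R : (b0 : ℝ) + b1 = b := by exact_mod_cast hb0
  obtain ⟨c1, hc1⟩ : ∃ c1 : ℕ, c1 = Nat.clog 2 (4 * (m * b) ^ 2) := ⟨_, rfl⟩
  have hc1a : 4 * (m * b) ^ 2 ≤ 2 ^ c1 := by
    rw [hc1]; exact Nat.le_pow_clog (by norm_num) _
  have hc1b : (c1 : ℝ) ≤ 8 * lg := by
    have h0 : 1 < 4 * (m * b) ^ 2 := by
      have : 1 ≤ (m * b) ^ 2 := Nat.one_le_pow _ _ (Nat.mul_pos (by omega) (by omega))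
      omega
    have h5 := Nat.pow_pred_clog_lt_self (b := 2) (by norm_num) h0
    have h6 : Nat.clog 2 (4 * (m * b) ^ 2) = (Nat.clog 2 (4 * (m * b) ^ 2)).pred + 1 := by
      have := Nat.clog_pos (b := 2) (by norm_num) (by omega : 2 ≤ 4 * (m * b) ^ 2)
      exact (Nat.succ_pred_eq_of_pos this).symm
    have h7 : 2 ^ c1 ≤ 8 * (m * b) ^ 2 := by
      rw [hc1, h6, pow_succ]
      omega
    have h8 : (2 : ℝ) ^ c1 ≤ 8 * ((m : ℝ) * b) ^ 2 := by exact_mod_cast h7
    have h9 := Real.log_le_log (by positivity) h8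
    rw [Real.log_pow, Real.log_mul (by norm_num) (by positivity), Real.log_pow] at h9
    have h10 : Real.log 8 = 3 * Real.log 2 := by
      rw [show (8 : ℝ) = 2 ^ 3 by norm_num, Real.log_pow]; norm_num
    rw [h10] at h9
    push_cast at h9
    have h11 : (c1 : ℝ) * Real.log 2 ≤ 5 * lg := by linarith
    have h12 : (0 : ℝ) ≤ c1 := Nat.cast_nonneg _
    nlinarith
  have hwle : C' * (d * lg) + c1 ≤ b1 := by nlinarith
  have hc1le : c1 ≤ b1 := by
    have : (c1 : ℝ) ≤ b1 := by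
      have : 0 ≤ C' * (d * lg) := by
        apply mul_nonneg hC'.le
        apply mul_nonneg (by linarith)
        linarith
      linarith
    exact_mod_cast this
  obtain ⟨w, hw⟩ : ∃ w : ℕ, w + c1 = b1 := ⟨b1 - c1, by omega⟩
  have hwR : (w : ℝ) + c1 = b1 := by exact_mod_cast hw
  have hb0big : (1 / 2 : ℝ) * b ≤ b0 := by nlinarith
  have hb13 : (13 : ℝ) ≤ b0 := by
    have h1 : 20 * lg ≤ ε' * b := by
      have : 0 ≤ C' * (d * lg) := by
        apply mul_nonneg hC'.le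
        apply mul_nonneg (by linarith)
        linarith
      nlinarith
    nlinarith
  have hb0N : 13 ≤ b0 := by exact_mod_cast hb13
  obtain ⟨n, hn⟩ : ∃ n : ℕ, n = m * b0 := ⟨_, rfl⟩
  have hb0n : b0 ≤ n := by rw [hn]; exact Nat.le_mul_of_pos_left _ (by omega)
  have hn2 : 2 ≤ n := by omega
  have hwb1 : w ≤ b1 := by omega
  have hwn : w ≤ n := by
    have h1 : (w : ℝ) ≤ b0 := by
      have : (w : ℝ) ≤ b1 := by exact_mod_cast hwb1
      nlinarith
    have h2 : w ≤ b0 := by exact_mod_cast h1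
    omega
  have hnmb : n ≤ m * b := by rw [hn]; exact Nat.mul_le_mul_left _ (by omega)
  have hnmbR : (n : ℝ) ≤ m * b := by exact_mod_cast hnmb
  have hnR : (2 : ℝ) ≤ n := by exact_mod_cast hn2
  -- the encoding of the states
  obtain ⟨M, hM⟩ : ∃ M : ℕ, M = n * 2 ^ w := ⟨_, rfl⟩
  obtain ⟨N, hN⟩ : ∃ N : ℕ, N = m * b0 * 2 := ⟨_, rfl⟩
  have hN0 : 0 < N := by rw [hN, ← hn]; omega
  obtain ⟨e⟩ : Nonempty (Lt m b0 ≃ Fin N) := ⟨Fintype.equivFinOfCardEq (by
    rw [Fintype.card_prod, Fintype.card_prod, Fintype.card_fin, Fintype.card_fin,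
      Fintype.card_bool, hN])⟩
  obtain ⟨c⟩ : Nonempty ((St b0 M × Fin N) ↪ (Fin b → Bool)) := by
    apply Function.Embedding.nonempty_of_card_le
    rw [Fintype.card_prod, Fintype.card_option, Fintype.card_prod, Fintype.card_fun,
      Fintype.card_fun, Fintype.card_fin, Fintype.card_fin, Fintype.card_fin, Fintype.card_fin,
      Fintype.card_bool]
    have h1 : 1 ≤ 2 ^ b0 := Nat.one_le_two_pow
    have h2 : 1 ≤ 2 ^ w := Nat.one_le_two_pow
    have h3 : 2 ≤ n * 2 ^ w := by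
      calc 2 ≤ n := hn2
        _ = n * 1 := (mul_one _).symm
        _ ≤ n * 2 ^ w := Nat.mul_le_mul_left _ h2
    calc (2 ^ b0 * (M + 1) + 1) * N ≤ (2 ^ b0 * (M + 2)) * N := by
          apply Nat.mul_le_mul_right
          have : 2 ^ b0 * (M + 2) = 2 ^ b0 * (M + 1) + 2 ^ b0 := by ring
          omega
      _ ≤ (2 ^ b0 * (2 * (n * 2 ^ w))) * N := by
          apply Nat.mul_le_mul_right
          apply Nat.mul_le_mul_left
          omega
      _ = 2 ^ b0 * (4 * n ^ 2) * 2 ^ w := by rw [hN, ← hn]; ring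
      _ ≤ 2 ^ b0 * (4 * (m * b) ^ 2) * 2 ^ w := by
          apply Nat.mul_le_mul_right
          apply Nat.mul_le_mul_left
          apply Nat.mul_le_mul_left
          exact Nat.pow_le_pow_left hnmb 2
      _ ≤ 2 ^ b0 * 2 ^ c1 * 2 ^ w := by
          apply Nat.mul_le_mul_right
          exact Nat.mul_le_mul_left _ hc1a
      _ = 2 ^ b := by
          rw [← pow_add, ← pow_add]
          congr 1
          omega
  have hmain := hlow n d k q w M S hn2 hd ?_ hwn hM.ge (Bits m b K)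
    (fun φ => inst hN0 e c (hn ▸ φ)) ?_ V θ hV ?_ ?_
  · refine lt_of_le_of_lt ?_ hmain
    apply Real.rpow_le_rpow_of_exponent_le (by norm_num)
    have h1 : (n : ℝ) = m * b0 := by rw [hn]; push_cast; ring
    rw [h1]
    have h2 : (1 - ε') * (b : ℝ) ≤ b0 := by nlinarith
    have h3 : (1 - ε') * (m * ((1 - ε') * b)) ≤ (1 - ε') * (m * (b0 : ℝ)) := by
      apply mul_le_mul_of_nonneg_left _ (by linarith)
      exact mul_le_mul_of_nonneg_left h2 (by linarith)
    have h4 : (1 - ε) * ((m : ℝ) * b) ≤ (1 - ε') * (m * ((1 - ε') * b)) := by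
      have h5 : (1 - ε) ≤ (1 - ε') * (1 - ε') := by nlinarith
      calc (1 - ε) * ((m : ℝ) * b) ≤ ((1 - ε') * (1 - ε')) * (m * b) := by
            apply mul_le_mul_of_nonneg_right h5 (by positivity)
        _ = _ := by ring
    linarith
  · have h1 : Real.log (n + k * (q + 1)) ≤ lg := by
      rw [hlg]
      apply Real.log_le_log (by linarith)
      rw [hG]; linarith
    calc C' * (d * Real.log (n + k * (q + 1))) ≤ C' * (d * lg) := by gcongr
      _ ≤ w := by linarith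
  · subst hn
    exact inst_junta hN0 e c
  · subst hn
    intro x _ hx
    exact hyes _ (fun h => hx ((meet_inst (by omega) (by omega) hK hN0 e c x).1 h))
  · subst hn
    intro x _ _ hx
    exact hno _ ((meet_inst (by omega) (by omega) hK hN0 e c x).2 hx)

end H592R3.Dfa
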